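import Mathlib

/-!
# Dissociated finite sets of integers with small Fourier transform away from `0`
-/

open Finset Complex

namespace Pool.Agent.Lib.P605199

noncomputable section

/-- Chernoff type bound by counting. -/
lemma chernoff_count {R r : ℕ} (f : Fin R → ℝ) (hf : ∀ t, |f t| ≤ 1)
    (hmean : ∑ t, f t ≤ R / 16) :
    ((univ.filter fun a : Fin r → Fin R => 3 * (r : ℝ) / 16 ≤ ∑ i, f (a i)).card : ℝ)
      ≤ Real.exp (-(r : ℝ) / 256) * (R : ℝ) ^ r := by
  have h1 : ∑ a : Fin r → Fin R, Real.exp ((1/16 : ℝ) * ∑ i, f (a i))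
      = (∑ t, Real.exp ((1/16 : ℝ) * f t)) ^ r := by
    have : ∀ a : Fin r → Fin R, Real.exp ((1/16 : ℝ) * ∑ i, f (a i))
        = ∏ i, Real.exp ((1/16 : ℝ) * f (a i)) := by
      intro a
      rw [Finset.mul_sum, Real.exp_sum]
    simp_rw [this]
    have h := (Finset.prod_univ_sum (fun _ : Fin r => (univ : Finset (Fin R)))
      (fun _ t => Real.exp ((1/16 : ℝ) * f t)))
    rw [Finset.prod_const, Finset.card_univ, Fintype.card_fin] at h
    rw [h]
    simp [Fintype.piFinset_univ]
  have h2 : ∑ t, Real.exp ((1/16 : ℝ) * f t) ≤ (R : ℝ) * Real.exp (2/256) := by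
    have hb : ∀ t, Real.exp ((1/16 : ℝ) * f t) ≤ 1 + (1/16) * f t + 1/256 := by
      intro t
      have ht := hf t
      have habs : |(1/16 : ℝ) * f t| ≤ 1/16 := by
        rw [abs_mul, abs_of_pos (by norm_num : (0:ℝ) < 1/16)]
        nlinarith
      have h := Real.abs_exp_sub_one_sub_id_le (x := (1/16 : ℝ) * f t) (by linarith)
      have h' := (abs_le.mp h).2
      have hsq : ((1/16 : ℝ) * f t)^2 ≤ 1/256 := by
        have := sq_abs ((1/16 : ℝ) * f t)
        rw [← this]
        nlinarith [abs_nonneg ((1/16 : ℝ) * f t)]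
      linarith
    calc ∑ t, Real.exp ((1/16 : ℝ) * f t) ≤ ∑ t : Fin R, (1 + (1/16) * f t + 1/256) :=
          Finset.sum_le_sum fun t _ => hb t
      _ = R * (1 + 1/256) + (1/16) * ∑ t, f t := by
          rw [Finset.sum_add_distrib, Finset.sum_add_distrib, ← Finset.mul_sum]
          simp
          ring
      _ ≤ R * (1 + 2/256) := by nlinarith
      _ ≤ R * Real.exp (2/256) := by
          have := Real.add_one_le_exp (2/256 : ℝ)
          have hR : (0:ℝ) ≤ R := Nat.cast_nonneg _
          nlinarith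
  have h3 : Real.exp (3 * r / 256) *
      ((univ.filter fun a : Fin r → Fin R => 3 * (r : ℝ) / 16 ≤ ∑ i, f (a i)).card : ℝ)
      ≤ ∑ a : Fin r → Fin R, Real.exp ((1/16 : ℝ) * ∑ i, f (a i)) := by
    rw [mul_comm, ← nsmul_eq_mul, ← Finset.sum_const]
    calc _ ≤ ∑ a ∈ univ.filter (fun a : Fin r → Fin R => 3 * (r : ℝ) / 16 ≤ ∑ i, f (a i)),
          Real.exp ((1/16 : ℝ) * ∑ i, f (a i)) := by
          apply Finset.sum_le_sum
          intro a ha
          rw [Finset.mem_filter] at ha
          apply Real.exp_le_exp.mpr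
          linarith [ha.2]
      _ ≤ _ := by
          apply Finset.sum_le_sum_of_subset_of_nonneg (Finset.filter_subset _ _)
          intro a _ _
          exact (Real.exp_pos _).le
  rw [h1] at h3
  have h4 : (∑ t, Real.exp ((1/16 : ℝ) * f t)) ^ r ≤ (R : ℝ)^r * Real.exp (2 * r /256) := by
    calc (∑ t, Real.exp ((1/16 : ℝ) * f t)) ^ r ≤ ((R : ℝ) * Real.exp (2/256)) ^ r := by
          apply pow_le_pow_left₀ _ h2
          exact Finset.sum_nonneg fun t _ => (Real.exp_pos _).le
      _ = (R : ℝ)^r * Real.exp (2 * r /256) := by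
          rw [mul_pow, ← Real.exp_nat_mul]
          congr 2
          ring
  have h5 := h3.trans h4
  have h6 : Real.exp (-(r : ℝ) / 256) = Real.exp (2 * r / 256) / Real.exp (3 * r / 256) := by
    rw [← Real.exp_sub]
    congr 1
    ring
  rw [h6, div_mul_eq_mul_div, le_div_iff₀ (Real.exp_pos _)]
  linarith

/-- The set of signed combinations built from `k` unit steps. -/
def stepSet (r : ℕ) : Finset (Fin r → ℤ) :=
  {0} ∪ (univ.image fun i : Fin r => (Pi.single i 1 : Fin r → ℤ)) ∪
    (univ.image fun i : Fin r => (Pi.single i (-1) : Fin r → ℤ))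

lemma stepSet_card (r : ℕ) : (stepSet r).card ≤ 2 * r + 1 := by
  unfold stepSet
  refine (card_union_le _ _).trans ?_
  have h1 : (({0} : Finset (Fin r → ℤ)) ∪
      (univ.image fun i : Fin r => (Pi.single i 1 : Fin r → ℤ))).card ≤ 1 + r := by
    refine (card_union_le _ _).trans ?_
    have : (univ.image fun i : Fin r => (Pi.single i 1 : Fin r → ℤ)).card ≤ r := by
      refine card_image_le.trans ?_
      simp
    simp only [card_singleton]
    omega
  have h2 : (univ.image fun i : Fin r => (Pi.single i (-1) : Fin r → ℤ)).card ≤ r := by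
    refine card_image_le.trans ?_
    simp
  omega

/-- integer vectors reachable with at most `K` steps. -/
def ballSet (r : ℕ) : ℕ → Finset (Fin r → ℤ)
  | 0 => {0}
  | (K+1) => (ballSet r K ×ˢ stepSet r).image fun p => p.1 + p.2

lemma ballSet_card (r K : ℕ) : (ballSet r K).card ≤ (2 * r + 1) ^ K := by
  induction K with
  | zero => simp [ballSet]
  | succ K ih =>
    unfold ballSet
    refine card_image_le.trans ?_
    rw [card_product, pow_succ]
    exact Nat.mul_le_mul ih (stepSet_card r)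

lemma mem_ballSet (r K : ℕ) (c : Fin r → ℤ) (hc : ∑ i, |c i| ≤ K) : c ∈ ballSet r K := by
  induction K generalizing c with
  | zero =>
    have h0 : ∀ i, c i = 0 := by
      intro i
      have h1 : |c i| ≤ ∑ i, |c i| := Finset.single_le_sum (fun j _ => abs_nonneg (c j)) (mem_univ i)
      have h2 : |c i| ≤ 0 := by push_cast at hc; omega
      exact abs_eq_zero.mp (le_antisymm h2 (abs_nonneg _))
    simp only [ballSet, mem_singleton]
    funext i
    exact h0 i
  | succ K ih =>
    unfold ballSet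
    rw [mem_image]
    by_cases hz : c = 0
    · refine ⟨(0, 0), ?_, by simp [hz]⟩
      rw [mem_product]
      refine ⟨ih 0 (by simp), by simp [stepSet]⟩
    · obtain ⟨i, hi⟩ : ∃ i, c i ≠ 0 := by
        by_contra hcon
        push Not at hcon
        exact hz (funext hcon)
      rcases lt_or_gt_of_ne hi with hneg | hpos
      · refine ⟨(c - Pi.single i (-1), Pi.single i (-1)), ?_, by simp⟩
        rw [mem_product]
        refine ⟨ih _ ?_, ?_⟩
        · have : ∑ j, |(c - Pi.single i (-1) : Fin r → ℤ) j| = ∑ j, |c j| - 1 := by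
            rw [← Finset.add_sum_erase _ _ (mem_univ i), ← Finset.add_sum_erase univ
              (fun j => |c j|) (mem_univ i)]
            have e1 : ∑ x ∈ univ.erase i, |(c - Pi.single i (-1) : Fin r → ℤ) x| = ∑ x ∈ univ.erase i, |c x| := by
              apply Finset.sum_congr rfl
              intro x hx
              rw [mem_erase] at hx
              simp [hx.1]
            rw [e1]
            simp only [Pi.sub_apply, Pi.single_eq_same, sub_neg_eq_add]
            rw [abs_of_nonpos (by omega : c i + 1 ≤ 0), abs_of_neg hneg]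
            ring
          rw [this]
          push_cast at hc ⊢
          omega
        · simp only [stepSet, mem_union, mem_image]
          right
          exact ⟨i, mem_univ _, rfl⟩
      · refine ⟨(c - Pi.single i 1, Pi.single i 1), ?_, by simp⟩
        rw [mem_product]
        refine ⟨ih _ ?_, ?_⟩
        · have : ∑ j, |(c - Pi.single i 1 : Fin r → ℤ) j| = ∑ j, |c j| - 1 := by
            rw [← Finset.add_sum_erase _ _ (mem_univ i), ← Finset.add_sum_erase univ
              (fun j => |c j|) (mem_univ i)]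
            have e1 : ∑ x ∈ univ.erase i, |(c - Pi.single i 1 : Fin r → ℤ) x| = ∑ x ∈ univ.erase i, |c x| := by
              apply Finset.sum_congr rfl
              intro x hx
              rw [mem_erase] at hx
              simp [hx.1]
            rw [e1]
            simp only [Pi.sub_apply, Pi.single_eq_same]
            rw [abs_of_nonneg (by omega : 0 ≤ c i - 1), abs_of_pos hpos]
            ring
          rw [this]
          push_cast at hc ⊢
          omega
        · simp only [stepSet, mem_union, mem_image]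
          left; right
          exact ⟨i, mem_univ _, rfl⟩

/-- number of samples violating one relation -/
lemma relation_count {R r M : ℕ} (c : Fin r → ℤ) (hc : c ≠ 0) :
    (univ.filter fun a : Fin r → Fin R => |∑ i, c i * ((a i : ℕ) : ℤ)| ≤ M).card * R
      ≤ (2 * M + 1) * R ^ r := by
  obtain ⟨i0, hi0⟩ : ∃ i, c i ≠ 0 := by
    by_contra hcon
    push Not at hcon
    exact hc (funext hcon)
  -- injection
  have hcard : (univ.filter fun a : Fin r → Fin R => |∑ i, c i * ((a i : ℕ) : ℤ)| ≤ M).card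
      ≤ ((univ : Finset ({i : Fin r // i ≠ i0} → Fin R)) ×ˢ Finset.Icc (-(M : ℤ)) M).card := by
    apply Finset.card_le_card_of_injOn
      (fun a => (fun i => a i.1, ∑ i, c i * ((a i : ℕ) : ℤ)))
    · intro a ha
      simp only [coe_filter, Set.mem_ofPred_eq, mem_univ, true_and] at ha
      simp only [coe_product, Set.mem_prod, coe_univ, Set.mem_univ, coe_Icc, Set.mem_Icc, true_and]
      exact abs_le.mp ha
    · intro a _ b _ hab
      simp only [Prod.mk.injEq] at hab
      obtain ⟨h1, h2⟩ := hab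
      have hother : ∀ i, i ≠ i0 → a i = b i := by
        intro i hi
        exact congrFun h1 ⟨i, hi⟩
      funext i
      by_cases hi : i = i0
      · subst hi
        rw [← Finset.add_sum_erase _ _ (mem_univ i), ← Finset.add_sum_erase univ
          (fun j => c j * ((b j : ℕ) : ℤ)) (mem_univ i)] at h2
        have e1 : ∑ x ∈ univ.erase i, c x * ((a x : ℕ) : ℤ) = ∑ x ∈ univ.erase i, c x * ((b x : ℕ) : ℤ) := by
          apply Finset.sum_congr rfl
          intro x hx
          rw [mem_erase] at hx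
          rw [hother x hx.1]
        rw [e1] at h2
        have h3 : c i * ((a i : ℕ) : ℤ) = c i * ((b i : ℕ) : ℤ) := by linarith
        have h4 := mul_left_cancel₀ hi0 h3
        apply Fin.ext
        exact_mod_cast h4
      · exact hother i hi
  rw [card_product] at hcard
  have e2 : (univ : Finset ({i : Fin r // i ≠ i0} → Fin R)).card = R ^ (r - 1) := by
    rw [card_univ, Fintype.card_fun]
    simp [Fintype.card_subtype_compl]
  have e3 : (Finset.Icc (-(M : ℤ)) M).card = 2 * M + 1 := by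
    simp
    omega
  rw [e2, e3] at hcard
  have hr : 0 < r := Fin.pos i0
  calc _ ≤ (R ^ (r-1) * (2 * M + 1)) * R := Nat.mul_le_mul_right _ hcard
    _ = (2 * M + 1) * (R ^ (r-1) * R) := by ring
    _ = (2 * M + 1) * R ^ r := by rw [← pow_succ, Nat.sub_add_cancel hr]

/-- exponential `e(θ n)` -/
def ee (θ : ℝ) (n : ℕ) : ℂ := Complex.exp (2 * Real.pi * Complex.I * θ * n)

lemma ee_eq_pow (θ : ℝ) (n : ℕ) : ee θ n = (Complex.exp (2 * Real.pi * Complex.I * θ)) ^ n := by
  unfold ee
  rw [← Complex.exp_nat_mul]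
  congr 1
  ring

lemma norm_ee (θ : ℝ) (n : ℕ) : ‖ee θ n‖ = 1 := by
  unfold ee
  have : (2 * Real.pi * Complex.I * θ * n : ℂ) = ((2 * Real.pi * θ * n : ℝ) : ℂ) * Complex.I := by
    push_cast; ring
  rw [this, Complex.norm_exp_ofReal_mul_I]

lemma ee_re (θ : ℝ) (n : ℕ) : (ee θ n).re = Real.cos (2 * Real.pi * θ * n) := by
  unfold ee
  have : (2 * Real.pi * Complex.I * θ * n : ℂ) = ((2 * Real.pi * θ * n : ℝ) : ℂ) * Complex.I := by
    push_cast; ring
  rw [this, Complex.exp_ofReal_mul_I_re]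

lemma ee_im (θ : ℝ) (n : ℕ) : (ee θ n).im = Real.sin (2 * Real.pi * θ * n) := by
  unfold ee
  have : (2 * Real.pi * Complex.I * θ * n : ℂ) = ((2 * Real.pi * θ * n : ℝ) : ℂ) * Complex.I := by
    push_cast; ring
  rw [this, Complex.exp_ofReal_mul_I_im]

lemma norm_one_sub_ee (θ : ℝ) : ‖(1 : ℂ) - ee θ 1‖ = 2 * |Real.sin (Real.pi * θ)| := by
  have h : ‖(1 : ℂ) - ee θ 1‖ ^ 2 = (2 * |Real.sin (Real.pi * θ)|) ^ 2 := by
    rw [Complex.sq_norm, Complex.normSq_apply]
    simp only [Complex.sub_re, Complex.sub_im, Complex.one_re, Complex.one_im, ee_re, ee_im,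
      Nat.cast_one, mul_one]
    rw [mul_pow, sq_abs]
    have e1 : 2 * Real.pi * θ = 2 * (Real.pi * θ) := by ring
    rw [e1, Real.cos_two_mul, Real.sin_two_mul]
    have := Real.sin_sq_add_cos_sq (Real.pi * θ)
    nlinarith [this]
  have h1 := norm_nonneg ((1 : ℂ) - ee θ 1)
  have h2 : 0 ≤ 2 * |Real.sin (Real.pi * θ)| := by positivity
  exact (pow_left_inj₀ h1 h2 (by norm_num)).mp h

lemma norm_one_sub_ee_ge {θ η : ℝ} (hη : 0 < η) (h1 : η ≤ θ) (h2 : θ ≤ 1 - η) :
    4 * η ≤ ‖(1 : ℂ) - ee θ 1‖ := by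
  rw [norm_one_sub_ee]
  have hsin : 2 * η ≤ Real.sin (Real.pi * θ) := by
    rcases le_total θ (1/2) with h | h
    · have hθ0 : 0 ≤ θ := by linarith
      have := Real.mul_le_sin (x := Real.pi * θ) (by positivity) (by nlinarith [Real.pi_pos])
      have e : 2 / Real.pi * (Real.pi * θ) = 2 * θ := by
        field_simp
      rw [e] at this
      linarith
    · have := Real.mul_le_sin (x := Real.pi * (1 - θ)) (by
        have : 0 ≤ 1 - θ := by linarith
        positivity) (by nlinarith [Real.pi_pos])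
      have e : 2 / Real.pi * (Real.pi * (1 - θ)) = 2 * (1 - θ) := by
        field_simp
      rw [e] at this
      have e2 : Real.sin (Real.pi * (1 - θ)) = Real.sin (Real.pi * θ) := by
        rw [← Real.sin_pi_sub]
        congr 1
        ring
      rw [e2] at this
      linarith
  rw [abs_of_nonneg (by linarith)]
  linarith

/-- geometric sum bound -/
lemma norm_sum_ee_le {θ η : ℝ} (hη : 0 < η) (h1 : η ≤ θ) (h2 : θ ≤ 1 - η) (R : ℕ) :
    ‖∑ t : Fin R, ee θ t‖ ≤ 1 / (2 * η) := by
  have hne : ee θ 1 ≠ 1 := by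
    intro h
    have := norm_one_sub_ee_ge hη h1 h2
    rw [h] at this
    simp at this
    linarith
  have e1 : ∑ t : Fin R, ee θ t = ((ee θ 1) ^ R - 1) / (ee θ 1 - 1) := by
    rw [Fin.sum_univ_eq_sum_range (fun t => ee θ t) R]
    have : ∀ t ∈ range R, ee θ t = (ee θ 1) ^ t := by
      intro t _
      rw [ee_eq_pow, ee_eq_pow, pow_one]
    rw [Finset.sum_congr rfl this, geom_sum_eq hne]
  rw [e1, norm_div]
  have hnum : ‖(ee θ 1) ^ R - 1‖ ≤ 2 := by
    refine (norm_sub_le _ _).trans ?_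
    rw [norm_pow, norm_ee]
    norm_num
  have hden : 4 * η ≤ ‖ee θ 1 - 1‖ := by
    rw [norm_sub_rev]
    exact norm_one_sub_ee_ge hη h1 h2
  rw [div_le_div_iff₀ (by linarith) (by positivity)]
  nlinarith

/-- The number of samples with a large exponential sum at a given frequency. -/
lemma freq_count {R r : ℕ} {θ η : ℝ} (hη : 0 < η) (h1 : η ≤ θ) (h2 : θ ≤ 1 - η)
    (hR : 8 / η ≤ R) :
    ((univ.filter fun a : Fin r → Fin R => 3 * (r : ℝ) / 8 ≤ ‖∑ i, ee θ (a i)‖).card : ℝ)
      ≤ 4 * (Real.exp (-(r : ℝ) / 256) * (R : ℝ) ^ r) := by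
  have hmean : ‖∑ t : Fin R, ee θ t‖ ≤ R / 16 := by
    refine (norm_sum_ee_le hη h1 h2 R).trans ?_
    rw [div_le_div_iff₀ (by positivity) (by norm_num)]
    rw [div_le_iff₀ hη] at hR
    linarith
  have hre : |∑ t : Fin R, (ee θ t).re| ≤ R / 16 := by
    rw [← Complex.re_sum]
    exact (Complex.abs_re_le_norm _).trans hmean
  have him : |∑ t : Fin R, (ee θ t).im| ≤ R / 16 := by
    rw [← Complex.im_sum]
    exact (Complex.abs_im_le_norm _).trans hmean
  have hb1 : ∀ t : Fin R, |(ee θ t).re| ≤ 1 := fun t =>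
    (Complex.abs_re_le_norm _).trans (norm_ee θ t).le
  have hb2 : ∀ t : Fin R, |(ee θ t).im| ≤ 1 := fun t =>
    (Complex.abs_im_le_norm _).trans (norm_ee θ t).le
  have c1 := chernoff_count (r := r) (fun t : Fin R => (ee θ t).re) hb1 (le_of_abs_le hre)
  have c2 := chernoff_count (r := r) (fun t : Fin R => -(ee θ t).re)
    (by intro t; rw [abs_neg]; exact hb1 t)
    (by rw [Finset.sum_neg_distrib]; exact neg_le_of_abs_le hre |> fun h => by linarith)
  have c3 := chernoff_count (r := r) (fun t : Fin R => (ee θ t).im) hb2 (le_of_abs_le him)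
  have c4 := chernoff_count (r := r) (fun t : Fin R => -(ee θ t).im)
    (by intro t; rw [abs_neg]; exact hb2 t)
    (by rw [Finset.sum_neg_distrib]; exact neg_le_of_abs_le him |> fun h => by linarith)
  have hsub : (univ.filter fun a : Fin r → Fin R => 3 * (r : ℝ) / 8 ≤ ‖∑ i, ee θ (a i)‖) ⊆
      (((univ.filter fun a : Fin r → Fin R => 3 * (r : ℝ) / 16 ≤ ∑ i, (ee θ (a i)).re) ∪
       (univ.filter fun a : Fin r → Fin R => 3 * (r : ℝ) / 16 ≤ ∑ i, -(ee θ (a i)).re)) ∪
       (univ.filter fun a : Fin r → Fin R => 3 * (r : ℝ) / 16 ≤ ∑ i, (ee θ (a i)).im)) ∪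
       (univ.filter fun a : Fin r → Fin R => 3 * (r : ℝ) / 16 ≤ ∑ i, -(ee θ (a i)).im) := by
    intro a ha
    simp only [mem_filter, mem_univ, true_and, mem_union] at ha ⊢
    have h := Complex.norm_le_abs_re_add_abs_im (∑ i, ee θ (a i))
    rw [Complex.re_sum, Complex.im_sum] at h
    simp only [Finset.sum_neg_distrib]
    by_contra hcon
    push Not at hcon
    obtain ⟨⟨⟨q1, q2⟩, q3⟩, q4⟩ := hcon
    have q5 : |∑ i, (ee θ (a i)).re| < 3 * (r : ℝ) / 16 := abs_lt.mpr ⟨by linarith, q1⟩
    have q6 : |∑ i, (ee θ (a i)).im| < 3 * (r : ℝ) / 16 := abs_lt.mpr ⟨by linarith, q3⟩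
    linarith
  have hcard := card_le_card hsub
  have hu := (hcard.trans (card_union_le _ _)).trans (Nat.add_le_add_right
    ((card_union_le _ _).trans (Nat.add_le_add_right (card_union_le _ _) _)) _)
  have hu' : ((univ.filter fun a : Fin r → Fin R => 3 * (r : ℝ) / 8 ≤ ‖∑ i, ee θ (a i)‖).card : ℝ)
      ≤ (univ.filter fun a : Fin r → Fin R => 3 * (r : ℝ) / 16 ≤ ∑ i, (ee θ (a i)).re).card +
       (univ.filter fun a : Fin r → Fin R => 3 * (r : ℝ) / 16 ≤ ∑ i, -(ee θ (a i)).re).card +
       (univ.filter fun a : Fin r → Fin R => 3 * (r : ℝ) / 16 ≤ ∑ i, (ee θ (a i)).im).card +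
       (univ.filter fun a : Fin r → Fin R => 3 * (r : ℝ) / 16 ≤ ∑ i, -(ee θ (a i)).im).card := by
    exact_mod_cast hu
  linarith

lemma norm_ee_sub_ee_le (θ θ' : ℝ) (n : ℕ) : ‖ee θ n - ee θ' n‖ ≤ 2 * Real.pi * n * |θ - θ'| := by
  unfold ee
  have h1 : (2 * Real.pi * Complex.I * θ * n : ℂ) = Complex.I * ((2 * Real.pi * θ * n : ℝ) : ℂ) := by
    push_cast; ring
  have h2 : (2 * Real.pi * Complex.I * θ' * n : ℂ) = Complex.I * ((2 * Real.pi * θ' * n : ℝ) : ℂ) := by
    push_cast; ring
  rw [h1, h2]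
  have h3 : Complex.exp (Complex.I * ((2 * Real.pi * θ * n : ℝ) : ℂ)) - Complex.exp (Complex.I * ((2 * Real.pi * θ' * n : ℝ) : ℂ))
      = Complex.exp (Complex.I * ((2 * Real.pi * θ' * n : ℝ) : ℂ)) * (Complex.exp (Complex.I * ((2 * Real.pi * θ * n - 2 * Real.pi * θ' * n : ℝ) : ℂ)) - 1) := by
    rw [mul_sub, mul_one, ← Complex.exp_add]
    congr 2
    push_cast
    ring
  rw [h3, norm_mul]
  have h4 : ‖Complex.exp (Complex.I * ((2 * Real.pi * θ' * n : ℝ) : ℂ))‖ = 1 := by
    rw [mul_comm, Complex.norm_exp_ofReal_mul_I]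
  rw [h4, one_mul]
  refine (Real.norm_exp_I_mul_ofReal_sub_one_le).trans ?_
  rw [Real.norm_eq_abs]
  have : 2 * Real.pi * θ * n - 2 * Real.pi * θ' * n = 2 * Real.pi * n * (θ - θ') := by ring
  rw [this, abs_mul, abs_of_nonneg (by positivity)]

/-- asymptotic choice of the parameter -/
lemma exists_param (K M B : ℕ) : ∃ n : ℕ, 1 ≤ n ∧ B ≤ 2 ^ n ∧
    4 * (64 * (2:ℝ)^n + 1) * Real.exp (-((1024 * n : ℕ) : ℝ) / 256) +
      (2 * (1024 * n : ℕ) + 1 : ℝ) ^ K * (2 * M + 1) / (2:ℝ)^n < 1 := by
  have t1 : Filter.Tendsto (fun n : ℕ => (4 * (64 * (2:ℝ)^n + 1) * Real.exp (-((1024 * n : ℕ) : ℝ) / 256)))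
      Filter.atTop (nhds 0) := by
    have hb : ∀ n : ℕ, (4 * (64 * (2:ℝ)^n + 1) * Real.exp (-((1024 * n : ℕ) : ℝ) / 256)) ≤ 260 * (1/2 : ℝ) ^ n := by
      intro n
      have e1 : Real.exp (-((1024 * n : ℕ) : ℝ) / 256) = (Real.exp (-4)) ^ n := by
        rw [← Real.exp_nat_mul]
        congr 1
        push_cast
        ring
      have e2 : Real.exp (-4) ≤ 1/4 := by
        have : (1 : ℝ) + 4 ≤ Real.exp 4 := by
          have := Real.add_one_le_exp (4:ℝ)
          linarith
        rw [Real.exp_neg, inv_le_comm₀ (Real.exp_pos _) (by norm_num)]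
        norm_num
        linarith
      have e3 : (1 : ℝ) ≤ 2 ^ n := one_le_pow₀ (by norm_num)
      rw [e1]
      calc 4 * (64 * (2:ℝ)^n + 1) * (Real.exp (-4)) ^ n ≤ 4 * (65 * (2:ℝ)^n) * (1/4)^n := by
            apply mul_le_mul
            · nlinarith
            · exact pow_le_pow_left₀ (Real.exp_pos _).le e2 n
            · positivity
            · positivity
        _ = 260 * (1/2 : ℝ) ^ n := by
            rw [show (1/2 : ℝ) = 2 * (1/4) by norm_num, mul_pow]
            ring
    apply squeeze_zero (fun n => by positivity) hb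
    have := (tendsto_pow_atTop_nhds_zero_of_lt_one (r := (1/2 : ℝ)) (by norm_num) (by norm_num)).const_mul 260
    simpa using this
  have t2 : Filter.Tendsto (fun n : ℕ => ((2 * (1024 * n : ℕ) + 1 : ℝ) ^ K * (2 * M + 1) / (2:ℝ)^n))
      Filter.atTop (nhds 0) := by
    have hlim := tendsto_pow_const_div_const_pow_of_one_lt K (r := (2:ℝ)) (by norm_num)
    have hlim2 := hlim.const_mul ((2049:ℝ) ^ K * (2 * M + 1))
    rw [mul_zero] at hlim2
    refine squeeze_zero' (Filter.Eventually.of_forall fun n => by positivity) ?_ hlim2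
    filter_upwards [Filter.eventually_ge_atTop 1] with n hn
    have hn' : (1:ℝ) ≤ n := by exact_mod_cast hn
    have h1 : (2 * (1024 * n : ℕ) + 1 : ℝ) ≤ 2049 * n := by
      push_cast
      linarith
    have h2 : (2 * (1024 * n : ℕ) + 1 : ℝ) ^ K ≤ (2049 * n) ^ K := by
      apply pow_le_pow_left₀ _ h1
      positivity
    rw [mul_pow] at h2
    calc _ ≤ ((2049:ℝ)^K * (n:ℝ)^K) * (2 * M + 1) / (2:ℝ)^n := by
          gcongr
      _ = _ := by ring
  have t3 := t1.add t2
  rw [add_zero] at t3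
  have e1 := t3.eventually (gt_mem_nhds (by norm_num : (0:ℝ) < 1))
  have e2 : ∀ᶠ n : ℕ in Filter.atTop, B ≤ 2 ^ n := by
    have := tendsto_pow_atTop_atTop_of_one_lt (r := (2:ℕ)) (by norm_num)
    exact this.eventually_ge_atTop B
  obtain ⟨n, hn⟩ := (e1.and (e2.and (Filter.eventually_ge_atTop 1))).exists
  exact ⟨n, hn.2.2, hn.2.1, hn.1⟩

/-- Main existence theorem. -/
theorem exists_dissociated (K M : ℕ) (δ : ℝ) (hδ : 0 < δ) (hδ' : δ ≤ 1) :
    ∃ A : Finset ℕ, 2 ≤ A.card ∧
      (∀ c : ℕ → ℤ, (∃ a ∈ A, c a ≠ 0) → ∑ a ∈ A, |c a| ≤ K → (M : ℤ) < |∑ a ∈ A, c a * a|) ∧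
      (∀ θ : ℝ, δ ≤ θ → θ ≤ 1 - δ → ‖∑ a ∈ A, ee θ a‖ ≤ A.card / 2) := by
  obtain ⟨n, hn1, hnB, hn⟩ := exists_param (K + 2) M (⌈16 / δ⌉₊)
  set r : ℕ := 1024 * n with hr
  set R : ℕ := 2 ^ n with hRdef
  have hRpos : 0 < R := by positivity
  have hRδ : 16 / δ ≤ R := (Nat.le_ceil _).trans (by exact_mod_cast hnB)
  set η : ℝ := δ / 2 with hη
  have hηpos : 0 < η := by positivity
  have hRη : 8 / η ≤ R := by
    have : 8 / η = 16 / δ := by
      rw [hη]; field_simp; norm_num
    rw [this]; exact hRδ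
  set Q : ℕ := 64 * R with hQ
  -- bad sets
  let bad1 : Finset (Fin r → Fin R) := ((ballSet r (K+2)).erase 0).biUnion fun c =>
    univ.filter fun a : Fin r → Fin R => |∑ i, c i * ((a i : ℕ) : ℤ)| ≤ M
  let freqs : Finset ℕ := (range (Q+1)).filter fun k => η ≤ (k : ℝ) / Q ∧ (k : ℝ) / Q ≤ 1 - η
  let bad2 : Finset (Fin r → Fin R) := freqs.biUnion fun k =>
    univ.filter fun a : Fin r → Fin R => 3 * (r : ℝ) / 8 ≤ ‖∑ i, ee ((k : ℝ) / Q) (a i)‖
  have hR' : (0 : ℝ) < R := by exact_mod_cast hRpos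
  have hb1 : (bad1.card : ℝ) ≤ (2 * (r:ℝ) + 1) ^ (K+2) * (2 * M + 1) / R * (R : ℝ)^r := by
    have h1 : bad1.card * R ≤ (2 * r + 1) ^ (K+2) * ((2 * M + 1) * R ^ r) := by
      calc bad1.card * R ≤ (∑ c ∈ (ballSet r (K+2)).erase 0,
            (univ.filter fun a : Fin r → Fin R => |∑ i, c i * ((a i : ℕ) : ℤ)| ≤ M).card) * R :=
            Nat.mul_le_mul_right _ card_biUnion_le
        _ = ∑ c ∈ (ballSet r (K+2)).erase 0,
            ((univ.filter fun a : Fin r → Fin R => |∑ i, c i * ((a i : ℕ) : ℤ)| ≤ M).card * R) := by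
            rw [Finset.sum_mul]
        _ ≤ ∑ c ∈ (ballSet r (K+2)).erase 0, ((2 * M + 1) * R ^ r) := by
            apply Finset.sum_le_sum
            intro c hc
            rw [mem_erase] at hc
            exact relation_count c hc.1
        _ = ((ballSet r (K+2)).erase 0).card * ((2 * M + 1) * R ^ r) := by
            rw [Finset.sum_const, smul_eq_mul]
        _ ≤ (2 * r + 1) ^ (K+2) * ((2 * M + 1) * R ^ r) := by
            apply Nat.mul_le_mul_right
            exact (card_erase_le).trans (ballSet_card r (K+2))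
    have h2 : (bad1.card : ℝ) * R ≤ (2 * (r:ℝ) + 1) ^ (K+2) * ((2 * M + 1) * (R:ℝ) ^ r) := by
      exact_mod_cast h1
    rw [div_mul_eq_mul_div, le_div_iff₀ hR']
    linarith
  have hb2 : (bad2.card : ℝ) ≤ (4 * (64 * (R:ℝ) + 1) * Real.exp (-(r:ℝ)/256)) * (R:ℝ)^r := by
    have h1 : (bad2.card : ℝ) ≤ ∑ k ∈ freqs, (4 * (Real.exp (-(r : ℝ) / 256) * (R : ℝ) ^ r)) := by
      have hcb : bad2.card ≤ ∑ k ∈ freqs, (univ.filter fun a : Fin r → Fin R =>
            3 * (r : ℝ) / 8 ≤ ‖∑ i, ee ((k : ℝ) / Q) (a i)‖).card := card_biUnion_le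
      calc (bad2.card : ℝ) ≤ ((∑ k ∈ freqs, (univ.filter fun a : Fin r → Fin R =>
            3 * (r : ℝ) / 8 ≤ ‖∑ i, ee ((k : ℝ) / Q) (a i)‖).card : ℕ) : ℝ) :=
            Nat.cast_le.mpr hcb
        _ = ∑ k ∈ freqs, ((univ.filter fun a : Fin r → Fin R =>
            3 * (r : ℝ) / 8 ≤ ‖∑ i, ee ((k : ℝ) / Q) (a i)‖).card : ℝ) := by push_cast; rfl
        _ ≤ _ := by
            apply Finset.sum_le_sum
            intro k hk
            simp only [freqs, mem_filter] at hk
            exact freq_count hηpos hk.2.1 hk.2.2 hRη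
    rw [Finset.sum_const, nsmul_eq_mul] at h1
    have h2 : (freqs.card : ℝ) ≤ 64 * R + 1 := by
      have : freqs.card ≤ Q + 1 := by
        refine (card_filter_le _ _).trans ?_
        simp
      have : (freqs.card : ℝ) ≤ ((Q + 1 : ℕ) : ℝ) := by exact_mod_cast this
      rw [hQ] at this
      push_cast at this
      exact this
    calc _ ≤ _ := h1
      _ ≤ (64 * R + 1) * (4 * (Real.exp (-(r : ℝ) / 256) * (R : ℝ) ^ r)) := by
          apply mul_le_mul_of_nonneg_right h2
          positivity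
      _ = _ := by ring
  have hex : ∃ a : Fin r → Fin R, a ∉ bad1 ∪ bad2 := by
    by_contra hcon
    push Not at hcon
    have huniv : (univ : Finset (Fin r → Fin R)) ⊆ bad1 ∪ bad2 := fun a _ => hcon a
    have h1 := (card_le_card huniv).trans (card_union_le _ _)
    rw [card_univ, Fintype.card_fun, Fintype.card_fin, Fintype.card_fin] at h1
    have h2 : ((R : ℝ))^r ≤ bad1.card + bad2.card := by exact_mod_cast h1
    have hRr : (0:ℝ) < (R:ℝ)^r := by positivity
    have hn' : (4 * (64 * (R:ℝ) + 1) * Real.exp (-(r:ℝ)/256)) +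
        (2 * (r:ℝ) + 1) ^ (K+2) * (2 * M + 1) / R < 1 := by
      have e1 : (R : ℝ) = (2:ℝ)^n := by rw [hRdef]; push_cast; rfl
      rw [e1, hr]
      exact hn
    have h3 : (R:ℝ)^r < (R:ℝ)^r := by
      calc (R:ℝ)^r ≤ bad1.card + bad2.card := h2
        _ ≤ (2 * (r:ℝ) + 1) ^ (K+2) * (2 * M + 1) / R * (R : ℝ)^r +
            (4 * (64 * (R:ℝ) + 1) * Real.exp (-(r:ℝ)/256)) * (R:ℝ)^r := add_le_add hb1 hb2
        _ = ((4 * (64 * (R:ℝ) + 1) * Real.exp (-(r:ℝ)/256)) +
        (2 * (r:ℝ) + 1) ^ (K+2) * (2 * M + 1) / R) * (R:ℝ)^r := by ring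
        _ < 1 * (R:ℝ)^r := mul_lt_mul_of_pos_right hn' hRr
        _ = (R:ℝ)^r := one_mul _
    exact lt_irrefl _ h3
  obtain ⟨a, ha⟩ := hex
  rw [mem_union, not_or] at ha
  obtain ⟨ha1, ha2⟩ := ha
  have hrel : ∀ c : Fin r → ℤ, c ≠ 0 → ∑ i, |c i| ≤ (K + 2 : ℕ) → (M : ℤ) < |∑ i, c i * ((a i : ℕ) : ℤ)| := by
    intro c hc0 hc
    by_contra hcon
    push Not at hcon
    apply ha1
    simp only [bad1, mem_biUnion, mem_erase, mem_filter, mem_univ, true_and]
    exact ⟨c, ⟨hc0, mem_ballSet _ _ _ hc⟩, hcon⟩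
  have hinj : Function.Injective (fun i : Fin r => ((a i : Fin R) : ℕ)) := by
    intro i j hij
    by_contra hne
    have h := hrel (Pi.single i 1 - Pi.single j 1) (by
      intro h0
      have := congrFun h0 i
      simp [hne] at this) (by
      calc ∑ k, |(Pi.single i 1 - Pi.single j 1 : Fin r → ℤ) k|
          ≤ ∑ k, (|(Pi.single i 1 : Fin r → ℤ) k| + |(Pi.single j 1 : Fin r → ℤ) k|) := by
            apply Finset.sum_le_sum
            intro k _
            exact abs_sub _ _
        _ = 2 := by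
            rw [Finset.sum_add_distrib]
            have hs : ∀ l : Fin r, ∑ k, |(Pi.single l 1 : Fin r → ℤ) k| = 1 := by
              intro l
              rw [Finset.sum_eq_single l]
              · simp
              · intro b _ hb
                simp [hb]
              · intro h; exact absurd (mem_univ _) h
            rw [hs, hs]
            norm_num
        _ ≤ _ := by push_cast; omega)
    have e0 : ∑ k, (Pi.single i 1 - Pi.single j 1 : Fin r → ℤ) k * ((a k : ℕ) : ℤ) = 0 := by
      simp only [Pi.sub_apply, sub_mul, Finset.sum_sub_distrib]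
      rw [Finset.sum_eq_single i, Finset.sum_eq_single j]
      · simp only [Pi.single_eq_same, one_mul]
        simp only at hij
        rw [hij]; ring
      · intro b _ hb; simp [hb]
      · intro h; exact absurd (mem_univ _) h
      · intro b _ hb; simp [hb]
      · intro h; exact absurd (mem_univ _) h
    rw [e0] at h
    simp at h
    omega
  refine ⟨univ.map ⟨fun i : Fin r => ((a i : Fin R) : ℕ), hinj⟩, ?_, ?_, ?_⟩
  · rw [card_map, card_univ, Fintype.card_fin]
    omega
  · intro c hc hcK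
    rw [sum_map] at hcK ⊢
    simp only [Function.Embedding.coeFn_mk] at hcK ⊢
    apply hrel (fun i => c ((a i : Fin R) : ℕ))
    · obtain ⟨x, hx, hx0⟩ := hc
      rw [mem_map] at hx
      obtain ⟨i, _, hi⟩ := hx
      intro h0
      apply hx0
      rw [← hi]
      exact congrFun h0 i
    · refine hcK.trans ?_
      push_cast
      omega
  · intro θ hθ1 hθ2
    rw [sum_map, card_map, card_univ, Fintype.card_fin]
    simp only [Function.Embedding.coeFn_mk]
    -- choose k
    have hQpos : (0:ℝ) < Q := by rw [hQ]; push_cast; positivity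
    have hθ0 : 0 ≤ θ := by linarith
    set k : ℕ := ⌊θ * Q⌋₊ with hk
    have hk1 : (k : ℝ) ≤ θ * Q := Nat.floor_le (by positivity)
    have hk2 : θ * Q < k + 1 := Nat.lt_floor_add_one _
    have hkQ : (k:ℝ) / Q ≤ θ := by rw [div_le_iff₀ hQpos]; exact hk1
    have hkQ2 : θ - (k:ℝ)/Q ≤ 1 / Q := by
      have : θ ≤ (k + 1) / Q := by rw [le_div_iff₀ hQpos]; exact hk2.le
      rw [add_div] at this
      linarith
    have h1Q : 1 / (Q:ℝ) ≤ η := by
      rw [div_le_iff₀ hQpos]
      have : 8 ≤ η * R := by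
        rw [div_le_iff₀ hηpos] at hRη
        linarith
      rw [hQ]; push_cast
      linarith
    have hkmem : k ∈ freqs := by
      simp only [freqs, mem_filter, mem_range]
      refine ⟨?_, ?_, ?_⟩
      · have : (k:ℝ) ≤ Q := by
          calc (k:ℝ) ≤ θ * Q := hk1
            _ ≤ 1 * Q := by apply mul_le_mul_of_nonneg_right _ hQpos.le; linarith
            _ = Q := one_mul _
        have : k ≤ Q := by exact_mod_cast this
        omega
      · have : δ = 2 * η := by rw [hη]; ring
        linarith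
      · linarith
    have hgood : ‖∑ i, ee ((k : ℝ) / Q) (a i)‖ < 3 * (r : ℝ) / 8 := by
      by_contra hcon
      push Not at hcon
      apply ha2
      simp only [bad2, mem_biUnion, mem_filter, mem_univ, true_and]
      exact ⟨k, hkmem, hcon⟩
    have hdiff : ‖∑ i, ee θ (a i) - ∑ i, ee ((k : ℝ) / Q) (a i)‖ ≤ r / 8 := by
      rw [← Finset.sum_sub_distrib]
      refine (norm_sum_le _ _).trans ?_
      calc ∑ i : Fin r, ‖ee θ (a i) - ee ((k : ℝ) / Q) (a i)‖ ≤ ∑ i : Fin r, (1/8 : ℝ) := by
            apply Finset.sum_le_sum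
            intro i _
            refine (norm_ee_sub_ee_le _ _ _).trans ?_
            have hai : ((a i : ℕ) : ℝ) ≤ R := by exact_mod_cast (a i).2.le
            have habs : |θ - (k:ℝ)/Q| ≤ 1/Q := by
              rw [abs_of_nonneg (by linarith)]
              exact hkQ2
            calc 2 * Real.pi * (a i : ℕ) * |θ - (k:ℝ)/Q| ≤ 2 * 4 * R * (1 / Q) := by
                  apply mul_le_mul _ habs (abs_nonneg _) (by positivity)
                  apply mul_le_mul _ hai (by positivity) (by positivity)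
                  have := Real.pi_le_four
                  linarith
              _ = 1/8 := by
                  rw [hQ]; push_cast
                  field_simp
                  norm_num
        _ = r / 8 := by
            rw [Finset.sum_const, card_univ, Fintype.card_fin, nsmul_eq_mul]
            ring
    have hfin : ‖∑ i, ee θ (a i)‖ ≤ ‖∑ i, ee θ (a i) - ∑ i, ee ((k : ℝ) / Q) (a i)‖ + ‖∑ i, ee ((k : ℝ) / Q) (a i)‖ := by
      have := norm_add_le (∑ i, ee θ (a i) - ∑ i, ee ((k : ℝ) / Q) (a i)) (∑ i, ee ((k : ℝ) / Q) (a i))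
      simpa using this
    linarith

end

end Pool.Agent.Lib.P605199
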