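import Mathlib
import Pool.Agent.Lib.P605199.Dissoc

/-!
# An invariant metric on the integers built from very dissociated sets
-/

open Finset

namespace Pool.Agent.Lib.P605199

noncomputable section

/-- chosen dissociated set at level `j` with gap `M`. -/
def chooseSet (j M : ℕ) : Finset ℕ :=
  Classical.choose (exists_dissociated (2^j+2) M (1/((j:ℝ)+2)) (by positivity) (by
    rw [div_le_iff₀ (by positivity)]
    have : (0:ℝ) ≤ j := Nat.cast_nonneg j
    linarith))

lemma chooseSet_spec (j M : ℕ) : 2 ≤ (chooseSet j M).card ∧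
      (∀ c : ℕ → ℤ, (∃ a ∈ chooseSet j M, c a ≠ 0) → ∑ a ∈ chooseSet j M, |c a| ≤ ((2^j+2 : ℕ) : ℤ) →
        (M : ℤ) < |∑ a ∈ chooseSet j M, c a * a|) ∧
      (∀ θ : ℝ, 1/((j:ℝ)+2) ≤ θ → θ ≤ 1 - 1/((j:ℝ)+2) →
        ‖∑ a ∈ chooseSet j M, ee θ a‖ ≤ (chooseSet j M).card / 2) :=
  Classical.choose_spec (exists_dissociated (2^j+2) M (1/((j:ℝ)+2)) (by positivity) (by
    rw [div_le_iff₀ (by positivity)]
    have : (0:ℝ) ≤ j := Nat.cast_nonneg j
    linarith))

/-- The bounds for the successive stages. -/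
def Lb : ℕ → ℕ
  | 0 => 1
  | (j+1) => Lb j + 1 + (2^j+2) * (chooseSet j (3 * Lb j + 3)).sup id
      + 2 * (chooseSet j (3 * Lb j + 3)).card * (Lb j + 1)

/-- The set at level `j`. -/
def Aset (j : ℕ) : Finset ℕ := chooseSet j (3 * Lb j + 3)

lemma Aset_card (j : ℕ) : 2 ≤ (Aset j).card := (chooseSet_spec j _).1

lemma Aset_nonempty (j : ℕ) : (Aset j).Nonempty := by
  rw [← card_pos]
  have := Aset_card j
  omega

lemma Aset_rel (j : ℕ) (c : ℕ → ℤ) (h : ∃ a ∈ Aset j, c a ≠ 0)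
    (hc : ∑ a ∈ Aset j, |c a| ≤ 2^j+2) : 3 * (Lb j : ℤ) + 3 < |∑ a ∈ Aset j, c a * a| := by
  have := (chooseSet_spec j (3 * Lb j + 3)).2.1 c h (by push_cast; exact hc)
  push_cast at this
  exact this

lemma Aset_four (j : ℕ) (θ : ℝ) (h1 : 1/((j:ℝ)+2) ≤ θ) (h2 : θ ≤ 1 - 1/((j:ℝ)+2)) :
    ‖∑ a ∈ Aset j, ee θ a‖ ≤ (Aset j).card / 2 :=
  (chooseSet_spec j _).2.2 θ h1 h2

lemma Lb_zero : Lb 0 = 1 := rfl

lemma Lb_succ (j : ℕ) : Lb (j+1) = Lb j + 1 + (2^j+2) * (Aset j).sup id
      + 2 * (Aset j).card * (Lb j + 1) := rfl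

lemma Lb_mono : Monotone Lb := by
  apply monotone_nat_of_le_succ
  intro n
  rw [Lb_succ]
  omega

lemma Lb_gt (j : ℕ) : j < Lb j := by
  induction j with
  | zero => simp [Lb_zero]
  | succ n ih =>
    rw [Lb_succ]
    omega

lemma le_sup_Aset {j a : ℕ} (ha : a ∈ Aset j) : a ≤ (Aset j).sup id :=
  Finset.le_sup (f := id) ha

lemma Lb_succ_ge {j a : ℕ} (ha : a ∈ Aset j) : Lb j + 1 + a ≤ Lb (j+1) := by
  rw [Lb_succ]
  have := le_sup_Aset ha
  have h2 : a ≤ (2^j+2) * (Aset j).sup id := by nlinarith [Nat.one_le_two_pow (n := j)]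
  omega

/-- elements of `Aset j` are separated -/
lemma Aset_sep {j a a' : ℕ} (ha : a ∈ Aset j) (ha' : a' ∈ Aset j) (hne : a ≠ a') :
    3 * (Lb j : ℤ) + 3 < |(a : ℤ) - a'| := by
  have h := Aset_rel j (fun x => (if x = a then 1 else 0) - (if x = a' then 1 else 0))
    ⟨a, ha, by simp [hne]⟩ (by
      calc ∑ x ∈ Aset j, |(if x = a then (1:ℤ) else 0) - (if x = a' then 1 else 0)|
          ≤ ∑ x ∈ Aset j, (|(if x = a then (1:ℤ) else 0)| + |(if x = a' then (1:ℤ) else 0)|) := by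
            apply Finset.sum_le_sum
            intro x _
            exact abs_sub _ _
        _ = 2 := by
            rw [Finset.sum_add_distrib]
            simp only [apply_ite abs, abs_one, abs_zero, Finset.sum_ite_eq', ha, ha', if_true]
            norm_num
        _ ≤ _ := by
            have : (0:ℤ) < 2^j := by positivity
            omega)
  simpa [sub_mul, Finset.sum_sub_distrib, ha, ha'] using h

lemma sum_bound (m : ℕ) : ∑ j ∈ range m, (2^j+2) * (Aset j).sup id ≤ Lb m := by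
  induction m with
  | zero => simp
  | succ m ih =>
    rw [sum_range_succ, Lb_succ]
    omega

/-- evaluation of a formal combination -/
def ev (n : ℕ) (C : ℕ → ℕ → ℤ) : ℤ := ∑ j ∈ range n, ∑ a ∈ Aset j, C j a * a

/-- cost of a formal combination -/
def cst (n : ℕ) (C : ℕ → ℕ → ℤ) : ℝ := ∑ j ∈ range n, ((∑ a ∈ Aset j, |C j a| : ℤ) : ℝ) * (1/2)^j

lemma cst_nonneg (n : ℕ) (C : ℕ → ℕ → ℤ) : 0 ≤ cst n C := by
  unfold cst
  apply Finset.sum_nonneg
  intro j _
  apply mul_nonneg _ (by positivity)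
  exact_mod_cast Finset.sum_nonneg fun a _ => abs_nonneg (C j a)

lemma cst_level_le {n : ℕ} {C : ℕ → ℕ → ℤ} {j : ℕ} (hj : j < n) :
    ((∑ a ∈ Aset j, |C j a| : ℤ) : ℝ) * (1/2)^j ≤ cst n C := by
  unfold cst
  apply Finset.single_le_sum (f := fun j => ((∑ a ∈ Aset j, |C j a| : ℤ) : ℝ) * (1/2)^j) _
    (mem_range.mpr hj)
  intro i _
  apply mul_nonneg _ (by positivity)
  exact_mod_cast Finset.sum_nonneg fun a _ => abs_nonneg (C i a)

/-- total cost of a pair -/
def tcost (m : ℤ) (p : ℕ × (ℕ → ℕ → ℤ)) : ℝ := (|m - ev p.1 p.2| : ℤ) + cst p.1 p.2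

lemma tcost_nonneg (m : ℤ) (p : ℕ × (ℕ → ℕ → ℤ)) : 0 ≤ tcost m p := by
  unfold tcost
  have := cst_nonneg p.1 p.2
  have h2 : (0:ℝ) ≤ ((|m - ev p.1 p.2| : ℤ) : ℝ) := by exact_mod_cast abs_nonneg _
  linarith

/-- The norm -/
def nrm (m : ℤ) : ℝ := ⨅ p : ℕ × (ℕ → ℕ → ℤ), tcost m p

lemma bdd (m : ℤ) : BddBelow (Set.range fun p : ℕ × (ℕ → ℕ → ℤ) => tcost m p) :=
  ⟨0, by rintro _ ⟨p, rfl⟩; exact tcost_nonneg m p⟩

lemma nrm_le (m : ℤ) (p : ℕ × (ℕ → ℕ → ℤ)) : nrm m ≤ tcost m p := ciInf_le (bdd m) p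

lemma nrm_nonneg (m : ℤ) : 0 ≤ nrm m := le_ciInf fun p => tcost_nonneg m p

lemma exists_of_nrm_lt {m : ℤ} {η : ℝ} (h : nrm m < η) : ∃ n C, tcost m (n, C) < η := by
  obtain ⟨⟨n, C⟩, hp⟩ := exists_lt_of_ciInf_lt h
  exact ⟨n, C, hp⟩

lemma nrm_le_abs (m : ℤ) : nrm m ≤ |m| := by
  refine (nrm_le m (0, fun _ _ => 0)).trans ?_
  simp [tcost, ev, cst]

lemma nrm_zero : nrm 0 = 0 := by
  apply le_antisymm _ (nrm_nonneg 0)
  have := nrm_le_abs 0
  simpa using this

lemma tcost_neg (m : ℤ) (n : ℕ) (C : ℕ → ℕ → ℤ) :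
    tcost (-m) (n, fun j a => - C j a) = tcost m (n, C) := by
  unfold tcost ev cst
  simp only [neg_mul, Finset.sum_neg_distrib, abs_neg]
  congr 2
  rw [← abs_neg]
  congr 1
  ring

lemma nrm_neg_le (m : ℤ) : nrm (-m) ≤ nrm m := by
  apply le_ciInf
  rintro ⟨n, C⟩
  rw [← tcost_neg]
  exact nrm_le _ _

lemma nrm_neg (m : ℤ) : nrm (-m) = nrm m := by
  apply le_antisymm (nrm_neg_le m)
  have := nrm_neg_le (-m)
  rwa [neg_neg] at this

/-- truncation of a combination -/
def trunc (n : ℕ) (C : ℕ → ℕ → ℤ) : ℕ → ℕ → ℤ := fun j a => if j < n then C j a else 0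

lemma ev_trunc {n N : ℕ} (h : n ≤ N) (C : ℕ → ℕ → ℤ) : ev N (trunc n C) = ev n C := by
  unfold ev
  have h1 : ∑ j ∈ range N, ∑ a ∈ Aset j, trunc n C j a * a
      = ∑ j ∈ range n, ∑ a ∈ Aset j, trunc n C j a * a := by
    symm
    apply Finset.sum_subset
    · intro j hj; rw [mem_range] at *; omega
    · intro j _ hj
      rw [mem_range] at hj
      simp [trunc, hj]
  rw [h1]
  apply Finset.sum_congr rfl
  intro j hj
  rw [mem_range] at hj
  simp [trunc, hj]

lemma cst_trunc {n N : ℕ} (h : n ≤ N) (C : ℕ → ℕ → ℤ) : cst N (trunc n C) = cst n C := by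
  unfold cst
  have h1 : ∑ j ∈ range N, ((∑ a ∈ Aset j, |trunc n C j a| : ℤ) : ℝ) * (1/2)^j
      = ∑ j ∈ range n, ((∑ a ∈ Aset j, |trunc n C j a| : ℤ) : ℝ) * (1/2)^j := by
    symm
    apply Finset.sum_subset
    · intro j hj; rw [mem_range] at *; omega
    · intro j _ hj
      rw [mem_range] at hj
      simp [trunc, hj]
  rw [h1]
  apply Finset.sum_congr rfl
  intro j hj
  rw [mem_range] at hj
  simp [trunc, hj]

lemma nrm_add_le (m m' : ℤ) : nrm (m + m') ≤ nrm m + nrm m' := by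
  apply le_of_forall_pos_lt_add
  intro ε hε
  obtain ⟨n, C, h1⟩ := exists_of_nrm_lt (show nrm m < nrm m + ε/2 by linarith)
  obtain ⟨n', C', h2⟩ := exists_of_nrm_lt (show nrm m' < nrm m' + ε/2 by linarith)
  set N := max n n' with hN
  have h3 : tcost (m + m') (N, fun j a => trunc n C j a + trunc n' C' j a)
      ≤ tcost m (n, C) + tcost m' (n', C') := by
    unfold tcost
    simp only
    have e1 : ev N (fun j a => trunc n C j a + trunc n' C' j a) = ev n C + ev n' C' := by
      rw [← ev_trunc (le_max_left n n') C, ← ev_trunc (le_max_right n n') C']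
      unfold ev
      simp only [add_mul, Finset.sum_add_distrib]
      rfl
    have e2 : cst N (fun j a => trunc n C j a + trunc n' C' j a) ≤ cst n C + cst n' C' := by
      rw [← cst_trunc (le_max_left n n') C, ← cst_trunc (le_max_right n n') C']
      unfold cst
      rw [← Finset.sum_add_distrib]
      apply Finset.sum_le_sum
      intro j _
      rw [← add_mul]
      apply mul_le_mul_of_nonneg_right _ (by positivity)
      have : ∑ a ∈ Aset j, |trunc n C j a + trunc n' C' j a| ≤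
          ∑ a ∈ Aset j, |trunc n C j a| + ∑ a ∈ Aset j, |trunc n' C' j a| := by
        rw [← Finset.sum_add_distrib]
        apply Finset.sum_le_sum
        intro a _
        exact abs_add_le _ _
      exact_mod_cast this
    rw [e1]
    have e3 : |m + m' - (ev n C + ev n' C')| ≤ |m - ev n C| + |m' - ev n' C'| := by
      have : m + m' - (ev n C + ev n' C') = (m - ev n C) + (m' - ev n' C') := by ring
      rw [this]
      exact abs_add_le _ _
    have e3' : ((|m + m' - (ev n C + ev n' C')| : ℤ) : ℝ) ≤ ((|m - ev n C| : ℤ) : ℝ) + ((|m' - ev n' C'| : ℤ) : ℝ) := by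
      exact_mod_cast e3
    linarith
  have h4 := nrm_le (m + m') (N, fun j a => trunc n C j a + trunc n' C' j a)
  linarith

lemma nrm_Aset {j a : ℕ} (ha : a ∈ Aset j) : nrm a ≤ (1/2)^j := by
  refine (nrm_le a (j+1, fun i b => if i = j ∧ b = a then 1 else 0)).trans ?_
  unfold tcost ev cst
  simp only
  have e1 : ∑ i ∈ range (j+1), ∑ b ∈ Aset i, (if i = j ∧ b = a then (1:ℤ) else 0) * b = a := by
    rw [Finset.sum_eq_single j]
    · rw [Finset.sum_eq_single a]
      · simp
      · intro b _ hb; simp [hb]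
      · intro h; exact absurd ha h
    · intro i _ hi
      apply Finset.sum_eq_zero
      intro b _
      simp [hi]
    · intro h; simp at h
  have e2 : ∑ i ∈ range (j+1), ((∑ b ∈ Aset i, |if i = j ∧ b = a then (1:ℤ) else 0| : ℤ) : ℝ) * (1/2)^i
      = (1/2)^j := by
    rw [Finset.sum_eq_single j]
    · have : ∑ b ∈ Aset j, |if j = j ∧ b = a then (1:ℤ) else 0| = 1 := by
        rw [Finset.sum_eq_single a]
        · simp
        · intro b _ hb; simp [hb]
        · intro h; exact absurd ha h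
      rw [this]
      simp
    · intro i _ hi
      have : ∑ b ∈ Aset i, |if i = j ∧ b = a then (1:ℤ) else 0| = 0 := by
        apply Finset.sum_eq_zero
        intro b _
        simp [hi]
      rw [this]
      simp
    · intro h; simp at h
  rw [e1, e2]
  simp

/-- Indicator difference of two digits. -/
def dig (x x' : ∀ j, Aset j) (J n : ℕ) (j a : ℕ) : ℤ :=
  if J ≤ j ∧ j < n then (if a = (x j : ℕ) then 1 else 0) - (if a = (x' j : ℕ) then 1 else 0) else 0

lemma dig_abs_sum (x x' : ∀ j, Aset j) (J n j : ℕ) : ∑ a ∈ Aset j, |dig x x' J n j a| ≤ 2 := by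
  unfold dig
  split_ifs with h
  · calc ∑ a ∈ Aset j, |(if a = (x j : ℕ) then (1:ℤ) else 0) - (if a = (x' j : ℕ) then 1 else 0)|
          ≤ ∑ a ∈ Aset j, (|(if a = (x j : ℕ) then (1:ℤ) else 0)| + |(if a = (x' j : ℕ) then (1:ℤ) else 0)|) := by
            apply Finset.sum_le_sum
            intro x _
            exact abs_sub _ _
        _ = 2 := by
            rw [Finset.sum_add_distrib]
            simp only [apply_ite abs, abs_one, abs_zero, Finset.sum_ite_eq', (x j).2, (x' j).2, if_true]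
            norm_num
        _ ≤ 2 := le_refl _
  · simp

lemma dig_sum (x x' : ∀ j, Aset j) (J n j : ℕ) : ∑ a ∈ Aset j, dig x x' J n j a * a =
    if J ≤ j ∧ j < n then ((x j : ℕ) : ℤ) - ((x' j : ℕ) : ℤ) else 0 := by
  unfold dig
  split_ifs with h
  · simp [sub_mul, Finset.sum_sub_distrib, (x j).2, (x' j).2]
  · simp

lemma key {J n : ℕ} {k : ℤ} (hk : |k| ≤ 2 * Lb J) (x x' : ∀ j, Aset j)
    {N : ℕ} {C : ℕ → ℕ → ℤ}
    (h : tcost (k + ∑ j ∈ Ico J n, (((x j : ℕ) : ℤ) - ((x' j : ℕ) : ℤ))) (N, C) < 1) :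
    ∀ j, J ≤ j → ∀ a ∈ Aset j, trunc N C j a = dig x x' J n j a := by
  set s := k + ∑ j ∈ Ico J n, (((x j : ℕ) : ℤ) - ((x' j : ℕ) : ℤ)) with hs
  have hcst : cst N C < 1 := by
    unfold tcost at h
    have h2 : (0:ℝ) ≤ ((|s - ev N C| : ℤ) : ℝ) := by exact_mod_cast abs_nonneg _
    simp only at h
    linarith
  have hint : s = ev N C := by
    unfold tcost at h
    simp only at h
    have h1 := cst_nonneg N C
    have h2 : ((|s - ev N C| : ℤ) : ℝ) < 1 := by linarith
    have h3 : |s - ev N C| < 1 := by exact_mod_cast h2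
    have h4 : |s - ev N C| = 0 := by
      have := abs_nonneg (s - ev N C)
      omega
    have := abs_eq_zero.mp h4
    omega
  by_contra hcon
  push Not at hcon
  obtain ⟨j0, hj0, a0, ha0, hne0⟩ := hcon
  -- difference vector
  set D : ℕ → ℕ → ℤ := fun j a => dig x x' J n j a - trunc N C j a with hD
  set N' := max n N with hN'
  have hDzero : ∀ j a, N' ≤ j → D j a = 0 := by
    intro j a hj
    have h1 : ¬ j < n := by omega
    have h2 : ¬ j < N := by omega
    simp [hD, dig, trunc, h1, h2]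
  have hlevel : ∀ j, ∑ a ∈ Aset j, |D j a| ≤ 2^j+2 := by
    intro j
    have h1 : ∑ a ∈ Aset j, |D j a| ≤ ∑ a ∈ Aset j, |dig x x' J n j a| + ∑ a ∈ Aset j, |trunc N C j a| := by
      rw [← Finset.sum_add_distrib]
      apply Finset.sum_le_sum
      intro a _
      exact abs_sub _ _
    have h2 := dig_abs_sum x x' J n j
    have h3 : ∑ a ∈ Aset j, |trunc N C j a| ≤ 2^j := by
      by_cases hj : j < N
      · have h4 := (cst_level_le (C := C) hj).trans_lt hcst
        have h5 : ((∑ a ∈ Aset j, |C j a| : ℤ) : ℝ) < 2^j := by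
          have hpos : (0:ℝ) < (1/2)^j := by positivity
          have e : (1/2 : ℝ)^j = 1 / 2^j := by rw [div_pow, one_pow]
          rw [e, mul_one_div, div_lt_one (by positivity)] at h4
          exact h4
        have h6 : ∑ a ∈ Aset j, |C j a| < 2^j := by exact_mod_cast h5
        simp only [trunc, hj, if_true]
        exact h6.le
      · simp [trunc, hj]
    omega
  have hsumD : k + ∑ j ∈ range N', ∑ a ∈ Aset j, D j a * a = 0 := by
    have e1 : ∑ j ∈ range N', ∑ a ∈ Aset j, D j a * a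
        = ∑ j ∈ range N', ∑ a ∈ Aset j, dig x x' J n j a * a - ∑ j ∈ range N', ∑ a ∈ Aset j, trunc N C j a * a := by
      rw [← Finset.sum_sub_distrib]
      apply Finset.sum_congr rfl
      intro j _
      rw [← Finset.sum_sub_distrib]
      apply Finset.sum_congr rfl
      intro a _
      simp only [hD]; ring
    have e2 : ∑ j ∈ range N', ∑ a ∈ Aset j, trunc N C j a * a = ev N C :=
      ev_trunc (le_max_right n N) C
    have e3 : ∑ j ∈ range N', ∑ a ∈ Aset j, dig x x' J n j a * a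
        = ∑ j ∈ Ico J n, (((x j : ℕ) : ℤ) - ((x' j : ℕ) : ℤ)) := by
      simp_rw [dig_sum]
      rw [← Finset.sum_filter]
      apply Finset.sum_congr
      · ext j
        simp only [mem_filter, mem_range, mem_Ico, hN']
        omega
      · intro j _; rfl
    rw [e1, e2, e3, ← hint, hs]
    ring
  -- the maximal bad level
  have hex : ((range N').filter fun j => J ≤ j ∧ ∃ a ∈ Aset j, D j a ≠ 0).Nonempty := by
    refine ⟨j0, ?_⟩
    rw [mem_filter, mem_range]
    have hD0 : D j0 a0 ≠ 0 := by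
      simp only [hD]
      intro h0
      apply hne0
      omega
    refine ⟨?_, hj0, a0, ha0, hD0⟩
    by_contra hlt
    push Not at hlt
    exact hD0 (hDzero j0 a0 hlt)
  set j1 := ((range N').filter fun j => J ≤ j ∧ ∃ a ∈ Aset j, D j a ≠ 0).max' hex with hj1
  have hj1mem := Finset.max'_mem _ hex
  rw [← hj1, mem_filter, mem_range] at hj1mem
  obtain ⟨hj1N, hJj1, hbad⟩ := hj1mem
  have hmax : ∀ j, j1 < j → j < N' → ∀ a ∈ Aset j, D j a = 0 := by
    intro j hj hjN a ha
    by_contra hcon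
    have hmem : j ∈ ((range N').filter fun j => J ≤ j ∧ ∃ a ∈ Aset j, D j a ≠ 0) := by
      rw [mem_filter, mem_range]
      exact ⟨hjN, by omega, a, ha, hcon⟩
    have := Finset.le_max' _ _ hmem
    omega
  have hbig := Aset_rel j1 (D j1) hbad (hlevel j1)
  have hsplit : ∑ j ∈ range N', ∑ a ∈ Aset j, D j a * a
      = ∑ j ∈ range j1, ∑ a ∈ Aset j, D j a * a + ∑ a ∈ Aset j1, D j1 a * a := by
    rw [← sum_range_succ (fun j => ∑ a ∈ Aset j, D j a * a) j1]
    symm
    apply Finset.sum_subset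
    · intro j hj; rw [mem_range] at *; omega
    · intro j hj hj'
      rw [mem_range] at hj hj'
      apply Finset.sum_eq_zero
      intro a ha
      rw [hmax j (by omega) hj a ha, zero_mul]
  have hlow : |∑ j ∈ range j1, ∑ a ∈ Aset j, D j a * a| ≤ Lb j1 := by
    calc |∑ j ∈ range j1, ∑ a ∈ Aset j, D j a * a| ≤ ∑ j ∈ range j1, |∑ a ∈ Aset j, D j a * a| :=
          Finset.abs_sum_le_sum_abs _ _
      _ ≤ ∑ j ∈ range j1, (((2^j+2) * (Aset j).sup id : ℕ) : ℤ) := by
          apply Finset.sum_le_sum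
          intro j _
          calc |∑ a ∈ Aset j, D j a * a| ≤ ∑ a ∈ Aset j, |D j a * a| :=
                Finset.abs_sum_le_sum_abs _ _
            _ ≤ ∑ a ∈ Aset j, |D j a| * ((Aset j).sup id : ℕ) := by
                apply Finset.sum_le_sum
                intro a ha
                rw [abs_mul]
                apply mul_le_mul_of_nonneg_left _ (abs_nonneg _)
                rw [abs_of_nonneg (by positivity)]
                exact_mod_cast le_sup_Aset ha
            _ = (∑ a ∈ Aset j, |D j a|) * ((Aset j).sup id : ℕ) := by rw [Finset.sum_mul]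
            _ ≤ (2^j+2) * ((Aset j).sup id : ℕ) := by
                apply mul_le_mul_of_nonneg_right (hlevel j) (by positivity)
            _ = _ := by push_cast; rfl
      _ = ((∑ j ∈ range j1, (2^j+2) * (Aset j).sup id : ℕ) : ℤ) := by push_cast; rfl
      _ ≤ Lb j1 := by exact_mod_cast sum_bound j1
  have hmono : (Lb J : ℤ) ≤ Lb j1 := by exact_mod_cast Lb_mono hJj1
  rw [hsplit] at hsumD
  have hfin : |∑ a ∈ Aset j1, D j1 a * a| ≤ 3 * Lb j1 := by
    have e : ∑ a ∈ Aset j1, D j1 a * a = -k - ∑ j ∈ range j1, ∑ a ∈ Aset j, D j a * a := by linarith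
    rw [e]
    calc |-k - ∑ j ∈ range j1, ∑ a ∈ Aset j, D j a * a| ≤ |-k| + |∑ j ∈ range j1, ∑ a ∈ Aset j, D j a * a| :=
          abs_sub _ _
      _ ≤ 2 * Lb J + Lb j1 := by rw [abs_neg]; exact add_le_add hk hlow
      _ ≤ _ := by linarith
  linarith

lemma tcost_lt_one_eq {m : ℤ} {N : ℕ} {C : ℕ → ℕ → ℤ} (h : tcost m (N, C) < 1) : m = ev N C := by
  unfold tcost at h
  simp only at h
  have h1 := cst_nonneg N C
  have h2 : ((|m - ev N C| : ℤ) : ℝ) < 1 := by linarith
  have h3 : |m - ev N C| < 1 := by exact_mod_cast h2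
  have h4 : |m - ev N C| = 0 := by
    have := abs_nonneg (m - ev N C)
    omega
  have := abs_eq_zero.mp h4
  omega

lemma cst_le_tcost (m : ℤ) (N : ℕ) (C : ℕ → ℕ → ℤ) : cst N C ≤ tcost m (N, C) := by
  unfold tcost
  have h2 : (0:ℝ) ≤ ((|m - ev N C| : ℤ) : ℝ) := by exact_mod_cast abs_nonneg _
  simp only
  linarith

lemma half_pow_le_one (J : ℕ) : (1/2 : ℝ)^J ≤ 1 := pow_le_one₀ (by norm_num) (by norm_num)

/-- nonzero integer part forces norm at least `2^{-J}` -/
lemma lower1 {J n : ℕ} {k : ℤ} (hk : |k| ≤ 2 * Lb J) (hk0 : k ≠ 0) (x x' : ∀ j, Aset j) :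
    (1/2 : ℝ)^J ≤ nrm (k + ∑ j ∈ Ico J n, (((x j : ℕ) : ℤ) - ((x' j : ℕ) : ℤ))) := by
  by_contra hcon
  push Not at hcon
  obtain ⟨N, C, hNC⟩ := exists_of_nrm_lt hcon
  have hlt1 := hNC.trans_le (half_pow_le_one J)
  have hkey := key hk x x' hlt1
  have hev := tcost_lt_one_eq hlt1
  have hcst := (cst_le_tcost _ N C).trans_lt hNC
  -- evaluate
  set N' := max (max n N) J with hN'
  have e1 : ev N' (trunc N C) = ev N C := ev_trunc (by omega) C
  have e2 : ev N' (trunc N C) = ∑ j ∈ range J, ∑ a ∈ Aset j, trunc N C j a * a +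
      ∑ j ∈ Ico J N', ∑ a ∈ Aset j, trunc N C j a * a := by
    unfold ev
    rw [Finset.sum_range_add_sum_Ico]
    omega
  have e3 : ∑ j ∈ Ico J N', ∑ a ∈ Aset j, trunc N C j a * a
      = ∑ j ∈ Ico J n, (((x j : ℕ) : ℤ) - ((x' j : ℕ) : ℤ)) := by
    have : ∀ j ∈ Ico J N', ∑ a ∈ Aset j, trunc N C j a * a = if J ≤ j ∧ j < n then ((x j : ℕ) : ℤ) - ((x' j : ℕ) : ℤ) else 0 := by
      intro j hj
      rw [mem_Ico] at hj
      rw [← dig_sum]
      apply Finset.sum_congr rfl
      intro a ha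
      rw [hkey j hj.1 a ha]
    rw [Finset.sum_congr rfl this, ← Finset.sum_filter]
    apply Finset.sum_congr
    · ext j
      simp only [mem_filter, mem_Ico, hN']
      omega
    · intro j _; rfl
  have e4 : k = ∑ j ∈ range J, ∑ a ∈ Aset j, trunc N C j a * a := by
    rw [e2, e3] at e1
    linarith
  have hex : ∃ j ∈ range J, ∃ a ∈ Aset j, trunc N C j a ≠ 0 := by
    by_contra hno
    push Not at hno
    apply hk0
    rw [e4]
    apply Finset.sum_eq_zero
    intro j hj
    apply Finset.sum_eq_zero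
    intro a ha
    rw [hno j hj a ha, zero_mul]
  obtain ⟨j, hj, a, ha, hne⟩ := hex
  rw [mem_range] at hj
  have hjN : j < N := by
    by_contra hno
    apply hne
    simp [trunc, hno]
  have hCne : C j a ≠ 0 := by
    simpa [trunc, hjN] using hne
  have h1 : (1:ℤ) ≤ ∑ b ∈ Aset j, |C j b| := by
    calc (1:ℤ) ≤ |C j a| := Int.one_le_abs hCne
      _ ≤ _ := Finset.single_le_sum (f := fun b => |C j b|) (fun b _ => abs_nonneg _) ha
  have h2 : (1/2 : ℝ)^j ≤ cst N C := by
    refine le_trans ?_ (cst_level_le hjN)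
    have : (1:ℝ) ≤ ((∑ b ∈ Aset j, |C j b| : ℤ) : ℝ) := by exact_mod_cast h1
    have hp : (0:ℝ) < (1/2)^j := by positivity
    nlinarith
  have h3 : (1/2 : ℝ)^J ≤ (1/2)^j := pow_le_pow_of_le_one (by norm_num) (by norm_num) hj.le
  linarith

/-- differing digits force norm at least `2^{-j0}` -/
lemma lower2 {J n : ℕ} {k : ℤ} (hk : |k| ≤ 2 * Lb J) (x x' : ∀ j, Aset j) {j0 : ℕ} (h1 : J ≤ j0)
    (h2 : j0 < n) (hx : x j0 ≠ x' j0) :
    (1/2 : ℝ)^j0 ≤ nrm (k + ∑ j ∈ Ico J n, (((x j : ℕ) : ℤ) - ((x' j : ℕ) : ℤ))) := by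
  by_contra hcon
  push Not at hcon
  obtain ⟨N, C, hNC⟩ := exists_of_nrm_lt hcon
  have hlt1 := hNC.trans_le (half_pow_le_one j0)
  have hkey := key hk x x' hlt1 j0 h1 (x j0) (x j0).2
  have hcst := (cst_le_tcost _ N C).trans_lt hNC
  have hxne : (x j0 : ℕ) ≠ (x' j0 : ℕ) := fun h => hx (Subtype.ext h)
  have hval : trunc N C j0 (x j0) = 1 := by
    rw [hkey]
    simp [dig, h1, h2, hxne]
  have hjN : j0 < N := by
    by_contra hno
    simp [trunc, hno] at hval
  have hC : C j0 (x j0) = 1 := by simpa [trunc, hjN] using hval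
  have h1 : (1:ℤ) ≤ ∑ b ∈ Aset j0, |C j0 b| := by
    calc (1:ℤ) = |C j0 (x j0)| := by rw [hC]; simp
      _ ≤ _ := Finset.single_le_sum (f := fun b => |C j0 b|) (fun b _ => abs_nonneg _) (x j0).2
  have h2 : (1/2 : ℝ)^j0 ≤ cst N C := by
    refine le_trans ?_ (cst_level_le hjN)
    have : (1:ℝ) ≤ ((∑ b ∈ Aset j0, |C j0 b| : ℤ) : ℝ) := by exact_mod_cast h1
    have hp : (0:ℝ) < (1/2)^j0 := by positivity
    nlinarith
  linarith

lemma nrm_pos {m : ℤ} (hm : m ≠ 0) : 0 < nrm m := by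
  obtain ⟨J, hJ⟩ : ∃ J : ℕ, |m| ≤ 2 * Lb J := by
    refine ⟨m.natAbs, ?_⟩
    have := Lb_gt m.natAbs
    rw [Int.abs_eq_natAbs]
    omega
  have x : ∀ j, Aset j := fun j => ⟨(Aset_nonempty j).choose, (Aset_nonempty j).choose_spec⟩
  have h := lower1 (n := J) hJ hm x x
  simp at h
  have hp : (0:ℝ) < (2^J)⁻¹ := by positivity
  linarith

/-- a copy of the integers -/
def Zx : Type := ℤ

instance : AddCommGroup Zx := inferInstanceAs (AddCommGroup ℤ)

instance : Countable Zx := inferInstanceAs (Countable ℤ)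

/-- group norm -/
def zxNorm : AddGroupNorm Zx where
  toFun := fun m => nrm m
  map_zero' := nrm_zero
  add_le' := fun a b => nrm_add_le a b
  neg' := fun a => nrm_neg a
  eq_zero_of_map_eq_zero' := fun a h => by
    by_contra hne
    exact (nrm_pos (m := a) hne).ne' h

instance : NormedAddCommGroup Zx := zxNorm.toNormedAddCommGroup

lemma norm_Zx (m : Zx) : ‖m‖ = nrm m := rfl

/-- The completed group. -/
abbrev Gx : Type := UniformSpace.Completion Zx

/-- identity map to the copy -/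
def toZx (m : ℤ) : Zx := m

lemma toZx_add (a b : ℤ) : toZx (a + b) = toZx a + toZx b := rfl

lemma toZx_zero : toZx 0 = 0 := rfl

/-- The canonical homomorphism. -/
def zi : ℤ →+ Gx where
  toFun := fun m => ((toZx m : Zx) : Gx)
  map_zero' := by
    rw [toZx_zero]
    exact UniformSpace.Completion.coe_zero
  map_add' := fun a b => by
    rw [toZx_add]
    exact UniformSpace.Completion.coe_add (toZx a) (toZx b)

lemma norm_zi (m : ℤ) : ‖zi m‖ = nrm m := by
  have : zi m = ((toZx m : Zx) : Gx) := rfl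
  rw [this, UniformSpace.Completion.norm_coe, norm_Zx]
  rfl

lemma dense_zi : DenseRange zi := by
  have h := UniformSpace.Completion.denseRange_coe (α := Zx)
  have hr : Set.range zi = Set.range (fun x : Zx => (x : Gx)) := by
    ext g
    constructor
    · rintro ⟨m, rfl⟩
      exact ⟨toZx m, rfl⟩
    · rintro ⟨x, rfl⟩
      exact ⟨x, rfl⟩
  intro g
  rw [hr]
  exact h g

end

end Pool.Agent.Lib.P605199
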