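import Mathlib
import Pool.Agent.Lib.P605199.Norm

/-!
# The invariant measure on the completed group
-/

open Finset MeasureTheory
open scoped ENNReal

namespace Pool.Agent.Lib.P605199

noncomputable section

instance : MeasurableSpace Gx := borel Gx

instance : BorelSpace Gx := ⟨rfl⟩

instance (j : ℕ) : Nonempty (Aset j) := (Aset_nonempty j).to_subtype

/-- digit sequences -/
abbrev Om : Type := ∀ j : ℕ, Aset j

/-- uniform probability on a digit set -/
def unif (j : ℕ) : Measure (Aset j) := (PMF.uniformOfFintype (Aset j)).toMeasure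

instance (j : ℕ) : IsProbabilityMeasure (unif j) := by unfold unif; infer_instance

lemma unif_singleton (j : ℕ) (a : Aset j) : unif j {a} = ((Aset j).card : ℝ≥0∞)⁻¹ := by
  unfold unif
  rw [PMF.toMeasure_apply_singleton _ _ (measurableSet_singleton a), PMF.uniformOfFintype_apply]
  simp

lemma lintegral_unif (j : ℕ) (f : Aset j → ℝ≥0∞) :
    ∫⁻ a, f a ∂(unif j) = ((Aset j).card : ℝ≥0∞)⁻¹ * ∑ a : Aset j, f a := by
  rw [lintegral_fintype]
  simp_rw [unif_singleton]
  rw [← Finset.sum_mul, mul_comm]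

/-- the product measure -/
def Pm : Measure Om := Measure.infinitePi unif

instance : IsProbabilityMeasure Pm := by unfold Pm; infer_instance

/-- splice two digit sequences at level `J` -/
def splice (J : ℕ) (p : Om × Om) : Om := fun j => if j < J then p.1 j else p.2 j

lemma measurable_splice (J : ℕ) : Measurable (splice J) := by
  apply measurable_pi_lambda
  intro j
  unfold splice
  split_ifs
  · exact (measurable_pi_apply j).comp measurable_fst
  · exact (measurable_pi_apply j).comp measurable_snd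

lemma map_splice (J : ℕ) : (Pm.prod Pm).map (splice J) = Pm := by
  unfold Pm
  apply Measure.eq_infinitePi
  intro s t ht
  rw [Measure.map_apply (measurable_splice J) (.pi s.countable_toSet fun i _ => ht i)]
  have e : splice J ⁻¹' (Set.pi (s : Set ℕ) t) =
      (Set.pi ((s.filter (· < J) : Finset ℕ) : Set ℕ) t) ×ˢ
        (Set.pi ((s.filter (fun j => ¬ j < J) : Finset ℕ) : Set ℕ) t) := by
    ext ⟨x, y⟩
    simp only [Set.mem_preimage, Set.mem_pi, splice, Set.mem_prod, coe_filter, Set.mem_ofPred_eq,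
      mem_coe, and_imp]
    constructor
    · intro h
      refine ⟨fun i hi hJ => ?_, fun i hi hJ => ?_⟩
      · have := h i hi
        simpa [hJ] using this
      · have := h i hi
        simpa [hJ] using this
    · rintro ⟨h1, h2⟩ i hi
      by_cases hJ : i < J
      · simpa [hJ] using h1 i hi hJ
      · simpa [hJ] using h2 i hi hJ
  rw [e, Measure.prod_prod, Measure.infinitePi_pi _ (fun i _ => ht i),
    Measure.infinitePi_pi _ (fun i _ => ht i), Finset.prod_filter_mul_prod_filter_not]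

lemma norm_zi_digit (x : Om) (j : ℕ) : ‖zi (x j : ℕ)‖ ≤ (1/2 : ℝ)^j := by
  rw [norm_zi]
  exact nrm_Aset (x j).2

/-- the tail sum from level `J` -/
def Phi (J : ℕ) (x : Om) : Gx := ∑' i : ℕ, zi (x (J + i) : ℕ)

lemma summable_half : Summable fun i : ℕ => (1/2 : ℝ)^i := summable_geometric_two

lemma norm_term_le (J : ℕ) (x : Om) (i : ℕ) : ‖zi (x (J + i) : ℕ)‖ ≤ (1/2 : ℝ)^J * (1/2)^i := by
  rw [← pow_add]
  exact norm_zi_digit x (J + i)

lemma summable_digits (J : ℕ) (x : Om) : Summable fun i : ℕ => zi (x (J + i) : ℕ) :=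
  Summable.of_norm_bounded (summable_half.mul_left ((1/2)^J)) (norm_term_le J x)

lemma norm_Phi_le (J : ℕ) (x : Om) : ‖Phi J x‖ ≤ 2 * (1/2 : ℝ)^J := by
  have h : HasSum (fun i : ℕ => (1/2 : ℝ)^J * (1/2)^i) ((1/2 : ℝ)^J * 2) :=
    hasSum_geometric_two.mul_left _
  have := tsum_of_norm_bounded h (norm_term_le J x)
  unfold Phi
  linarith

lemma Phi_succ (J : ℕ) (x : Om) : Phi J x = zi (x J : ℕ) + Phi (J+1) x := by
  unfold Phi
  rw [(summable_digits J x).tsum_eq_zero_add]
  congr 1
  apply tsum_congr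
  intro i
  rw [show J + (i + 1) = J + 1 + i by ring]

lemma Phi_split {J n : ℕ} (h : J ≤ n) (x : Om) :
    Phi J x = zi (∑ j ∈ Ico J n, ((x j : ℕ) : ℤ)) + Phi n x := by
  induction n, h using Nat.le_induction with
  | base => simp
  | succ n hn ih =>
    rw [ih, Phi_succ n, Finset.sum_Ico_succ_top hn, map_add, add_assoc]

lemma continuous_Phi (J : ℕ) : Continuous (Phi J) := by
  unfold Phi
  apply continuous_tsum _ (summable_half.mul_left ((1/2)^J)) (fun i x => norm_term_le J x i)
  intro i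
  have : Continuous fun a : Aset (J + i) => zi ((a : ℕ) : ℤ) := continuous_of_discreteTopology
  exact this.comp (continuous_apply (J + i))

lemma measurable_Phi (J : ℕ) : Measurable (Phi J) := (continuous_Phi J).measurable

lemma Phi_splice {J J' : ℕ} (h : J' ≤ J) (p : Om × Om) : Phi J (splice J' p) = Phi J p.2 := by
  unfold Phi
  apply tsum_congr
  intro i
  have : ¬ (J + i < J') := by omega
  simp [splice, this]

/-- law of the tail sum -/
def kap (J : ℕ) : Measure Gx := Pm.map (Phi J)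

instance (J : ℕ) : IsProbabilityMeasure (kap J) :=
  Measure.isProbabilityMeasure_map (measurable_Phi J).aemeasurable

/-- mass of a translate -/
def kk (J : ℕ) (m : ℤ) (E : Set Gx) : ℝ≥0∞ := kap J {g | zi m + g ∈ E}

lemma measurableSet_translate {E : Set Gx} (hE : MeasurableSet E) (m : ℤ) :
    MeasurableSet {g | zi m + g ∈ E} := (measurable_const_add (zi m)) hE

lemma kk_eq {J : ℕ} {m : ℤ} {E : Set Gx} (hE : MeasurableSet E) :
    kk J m E = Pm {x | zi m + Phi J x ∈ E} := by
  unfold kk kap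
  rw [Measure.map_apply (measurable_Phi J) (measurableSet_translate hE m)]
  rfl

lemma kk_rec {J : ℕ} {m : ℤ} {E : Set Gx} (hE : MeasurableSet E) :
    kk J m E = ((Aset J).card : ℝ≥0∞)⁻¹ * ∑ a ∈ Aset J, kk (J+1) (m + a) E := by
  rw [kk_eq hE]
  have hm : MeasurableSet {x : Om | zi m + Phi J x ∈ E} :=
    (measurable_Phi J) (measurableSet_translate hE m)
  conv_lhs => rw [← map_splice (J+1), Measure.map_apply (measurable_splice (J+1)) hm]
  have e : splice (J+1) ⁻¹' {x : Om | zi m + Phi J x ∈ E}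
      = {p : Om × Om | zi m + (zi ((p.1 J : ℕ) : ℤ) + Phi (J+1) p.2) ∈ E} := by
    ext p
    simp only [Set.mem_preimage, Set.mem_ofPred_eq]
    rw [Phi_succ J, Phi_splice (le_refl (J+1))]
    simp [splice]
  rw [e]
  have hm2 : MeasurableSet {p : Om × Om | zi m + (zi ((p.1 J : ℕ) : ℤ) + Phi (J+1) p.2) ∈ E} := by
    rw [← e]
    exact (measurable_splice (J+1)) hm
  rw [Measure.prod_apply hm2]
  have h1 : ∀ x : Om, Pm (Prod.mk x ⁻¹' {p : Om × Om | zi m + (zi ((p.1 J : ℕ) : ℤ) + Phi (J+1) p.2) ∈ E})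
      = kk (J+1) (m + ((x J : ℕ) : ℤ)) E := by
    intro x
    rw [kk_eq hE]
    congr 1
    ext y
    simp only [Set.mem_preimage, Set.mem_ofPred_eq, map_add]
    rw [add_assoc]
  simp_rw [h1]
  have h2 := (measurePreserving_eval_infinitePi unif J)
  have h3 : ∫⁻ x, kk (J+1) (m + ((x J : ℕ) : ℤ)) E ∂Pm = ∫⁻ a, kk (J+1) (m + (((a : Aset J) : ℕ) : ℤ)) E ∂(unif J) := by
    rw [← h2.map_eq, lintegral_map (measurable_of_countable _) h2.measurable]
    rfl
  rw [h3, lintegral_unif]
  congr 1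
  rw [Finset.sum_coe_sort (Aset J) (fun a => kk (J+1) (m + (a : ℤ)) E)]

/-- the weights -/
def Wt (J : ℕ) : ℝ≥0∞ := ∏ j ∈ range J, ((Aset j).card : ℝ≥0∞)⁻¹

lemma Wt_succ (J : ℕ) : Wt (J+1) = Wt J * ((Aset J).card : ℝ≥0∞)⁻¹ := by
  unfold Wt
  rw [Finset.prod_range_succ]

lemma card_ne_zero' (J : ℕ) : ((Aset J).card : ℝ≥0∞) ≠ 0 := by
  have := Aset_card J
  simp only [ne_eq, Nat.cast_eq_zero]
  omega

lemma Wt_ne_top (J : ℕ) : Wt J ≠ ∞ := by
  unfold Wt
  apply ENNReal.prod_ne_top
  intro j _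
  exact ENNReal.inv_ne_top.mpr (card_ne_zero' j)

lemma Wt_pos (J : ℕ) : 0 < Wt J := by
  unfold Wt
  rw [pos_iff_ne_zero, Finset.prod_ne_zero_iff]
  intro j _
  exact ENNReal.inv_ne_zero.mpr (ENNReal.natCast_ne_top _)

/-- the stage measures -/
def muJ (J : ℕ) : Measure Gx :=
  Wt J • ∑ m ∈ Icc (-(Lb J : ℤ)) (Lb J), (kap J).map (fun g => zi m + g)

lemma muJ_apply (J : ℕ) {E : Set Gx} (hE : MeasurableSet E) :
    muJ J E = Wt J * ∑ m ∈ Icc (-(Lb J : ℤ)) (Lb J), kk J m E := by
  unfold muJ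
  rw [Measure.smul_apply, Measure.finsetSum_apply, smul_eq_mul]
  congr 1
  apply Finset.sum_congr rfl
  intro m _
  rw [Measure.map_apply (measurable_const_add _) hE]
  rfl

instance (J : ℕ) : IsFiniteMeasure (muJ J) := by
  constructor
  rw [muJ_apply J MeasurableSet.univ]
  apply ENNReal.mul_lt_top (Wt_ne_top J).lt_top
  rw [ENNReal.sum_lt_top]
  intro m _
  exact measure_lt_top _ _

lemma level_up (J : ℕ) (S : Finset ℤ) (hS : S ⊆ Icc (-((Lb J : ℤ) + 1)) (Lb J + 1)) {E : Set Gx}
    (hE : MeasurableSet E) : Wt J * ∑ m ∈ S, kk J m E ≤ muJ (J+1) E := by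
  rw [muJ_apply (J+1) hE, Wt_succ, mul_assoc]
  apply mul_le_mul_right
  simp_rw [kk_rec (J := J) hE]
  rw [← Finset.mul_sum]
  apply mul_le_mul_right
  rw [← Finset.sum_product' S (Aset J) (fun m a => kk (J+1) (m + (a : ℤ)) E)]
  have hinj : Set.InjOn (fun p : ℤ × ℕ => p.1 + (p.2 : ℤ)) (S ×ˢ Aset J : Finset (ℤ × ℕ)) := by
    rintro ⟨m, a⟩ hp ⟨m', a'⟩ hp' heq
    simp only [coe_product, Set.mem_prod, mem_coe] at hp hp' heq
    have h1 := mem_Icc.mp (hS hp.1)
    have h2 := mem_Icc.mp (hS hp'.1)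
    by_cases haa : a = a'
    · subst haa
      have : m = m' := by linarith
      rw [this]
    · exfalso
      have h3 := Aset_sep hp.2 hp'.2 haa
      have h4 : (a : ℤ) - a' = m' - m := by linarith
      rw [h4] at h3
      have h5 : |m' - m| ≤ 2 * Lb J + 2 := by
        rw [abs_le]; constructor <;> linarith
      have h6 : (0:ℤ) ≤ Lb J := by positivity
      linarith
  have himg : ∑ p ∈ S ×ˢ Aset J, kk (J+1) (p.1 + (p.2 : ℤ)) E
      = ∑ m ∈ (S ×ˢ Aset J).image (fun p : ℤ × ℕ => p.1 + (p.2 : ℤ)), kk (J+1) m E := by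
    rw [Finset.sum_image hinj]
  rw [himg]
  apply Finset.sum_le_sum_of_subset
  intro m hm
  rw [mem_image] at hm
  obtain ⟨⟨m0, a⟩, hp, rfl⟩ := hm
  rw [mem_product] at hp
  have h1 := mem_Icc.mp (hS hp.1)
  have h2 := Lb_succ_ge hp.2
  rw [mem_Icc]
  simp only at h1 ⊢
  have h3 : (Lb J : ℤ) + 1 + a ≤ Lb (J+1) := by exact_mod_cast h2
  constructor <;> omega

lemma muJ_le_succ (J : ℕ) : muJ J ≤ muJ (J+1) := by
  rw [Measure.le_iff]
  intro E hE
  rw [muJ_apply J hE]
  apply level_up J _ _ hE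
  intro m hm
  rw [mem_Icc] at *
  constructor <;> linarith

lemma muJ_mono : Monotone muJ := monotone_nat_of_le_succ muJ_le_succ

/-- increments -/
def incr : ℕ → Measure Gx
  | 0 => muJ 0
  | (J+1) => muJ (J+1) - muJ J

lemma sum_incr (J : ℕ) {E : Set Gx} : ∑ i ∈ range (J+1), incr i E = muJ J E := by
  induction J with
  | zero => simp [incr]
  | succ J ih =>
    rw [Finset.sum_range_succ, ih]
    have := Measure.sub_add_cancel_of_le (muJ_le_succ J)
    conv_rhs => rw [← this]
    rw [Measure.add_apply, add_comm]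
    rfl

/-- the invariant measure -/
def mu : Measure Gx := Measure.sum incr

lemma mu_apply {E : Set Gx} (hE : MeasurableSet E) : mu E = ⨆ J, muJ J E := by
  unfold mu
  rw [Measure.sum_apply _ hE, ENNReal.tsum_eq_iSup_nat]
  apply le_antisymm
  · apply iSup_le
    intro n
    cases n with
    | zero => simp
    | succ n =>
      rw [sum_incr]
      exact le_iSup (fun J => muJ J E) n
  · apply iSup_le
    intro n
    rw [← sum_incr]
    exact le_iSup (fun a => ∑ i ∈ range a, incr i E) (n+1)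

lemma muJ_le_mu (J : ℕ) : muJ J ≤ mu := by
  rw [Measure.le_iff]
  intro E hE
  rw [mu_apply hE]
  exact le_iSup (fun J => muJ J E) J

lemma kk_translate (J : ℕ) (m k : ℤ) (E : Set Gx) :
    kk J m {g | zi k + g ∈ E} = kk J (k + m) E := by
  unfold kk
  congr 1
  ext g
  simp only [Set.mem_ofPred_eq, map_add]
  rw [add_assoc]

lemma muJ_translate_le (J : ℕ) {E : Set Gx} (hE : MeasurableSet E) (k : ℤ) (hk : |k| ≤ 1) :
    muJ J {g | zi k + g ∈ E} ≤ muJ (J+1) E := by
  rw [muJ_apply J (measurableSet_translate hE k)]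
  simp_rw [kk_translate]
  have e : ∑ m ∈ Icc (-(Lb J : ℤ)) (Lb J), kk J (k + m) E
      = ∑ m ∈ (Icc (-(Lb J : ℤ)) (Lb J)).image (fun m => k + m), kk J m E := by
    rw [Finset.sum_image]
    intro a _ b _ h
    simpa using h
  rw [e]
  apply level_up J _ _ hE
  intro m hm
  rw [mem_image] at hm
  obtain ⟨m0, hm0, rfl⟩ := hm
  rw [mem_Icc] at *
  have := abs_le.mp hk
  constructor <;> linarith

lemma mu_translate_le {E : Set Gx} (hE : MeasurableSet E) (k : ℤ) (hk : |k| ≤ 1) :
    mu {g | zi k + g ∈ E} ≤ mu E := by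
  rw [mu_apply (measurableSet_translate hE k), mu_apply hE]
  apply iSup_le
  intro J
  exact (muJ_translate_le J hE k hk).trans (le_iSup (fun J => muJ J E) (J+1))

lemma mu_translate {E : Set Gx} (hE : MeasurableSet E) :
    mu {g | zi 1 + g ∈ E} = mu E := by
  apply le_antisymm (mu_translate_le hE 1 (by norm_num))
  have h := mu_translate_le (measurableSet_translate hE 1) (-1) (by norm_num)
  have e : {g : Gx | zi (-1) + g ∈ {g | zi 1 + g ∈ E}} = E := by
    ext g
    simp only [Set.mem_ofPred_eq]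
    rw [← add_assoc, ← map_add]
    simp
  rwa [e] at h

lemma mu_translate_int {E : Set Gx} (hE : MeasurableSet E) (k : ℤ) :
    mu {g | zi k + g ∈ E} = mu E := by
  have hnat : ∀ (n : ℕ) (E : Set Gx), MeasurableSet E → mu {g | zi (n : ℤ) + g ∈ E} = mu E := by
    intro n
    induction n with
    | zero => intro E _; simp
    | succ n ih =>
      intro E hE
      have e : {g : Gx | zi ((n + 1 : ℕ) : ℤ) + g ∈ E} = {g | zi (n : ℤ) + g ∈ {g | zi 1 + g ∈ E}} := by
        ext g
        simp only [Set.mem_ofPred_eq]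
        rw [← add_assoc, ← map_add]
        push_cast
        rw [add_comm (1:ℤ)]
      rw [e, ih _ (measurableSet_translate hE 1), mu_translate hE]
  obtain ⟨n, rfl | rfl⟩ := k.eq_nat_or_neg
  · exact hnat n E hE
  · have h := hnat n {g | zi (-(n:ℤ)) + g ∈ E} (measurableSet_translate hE _)
    have e : {g : Gx | zi (n : ℤ) + g ∈ {g | zi (-(n:ℤ)) + g ∈ E}} = E := by
      ext g
      simp only [Set.mem_ofPred_eq]
      rw [← add_assoc, ← map_add]
      simp
    rw [e] at h
    exact h.symm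

end

end Pool.Agent.Lib.P605199
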