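import Mathlib

/-!
# Polynomials of isometries: `‖p(W)‖ ≤ sup_{|z| = 1} |p z|`
-/

open Polynomial Finset

namespace Pool.Agent.Lib.P605199

variable {H : Type*} [NormedAddCommGroup H] [InnerProductSpace ℂ H] [CompleteSpace H]

lemma norm_aeval_unitary_le (U : H →L[ℂ] H) (hU : U ∈ unitary (H →L[ℂ] H)) (p : ℂ[X]) (B : ℝ)
    (hB : ∀ z : ℂ, ‖z‖ = 1 → ‖p.eval z‖ ≤ B) : ‖aeval U p‖ ≤ B := by
  have hB0 : 0 ≤ B := (norm_nonneg _).trans (hB 1 (by simp))
  have hn : IsStarNormal U := by
    have := Unitary.coe_isStarNormal ⟨U, hU⟩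
    exact this
  rw [← cfc_polynomial p U]
  apply norm_cfc_le hB0
  intro z hz
  apply hB
  exact spectrum.norm_eq_one_of_unitary hU hz

/-- cyclic shift of vectors of length `m + 1`. -/
noncomputable def cshift (H : Type*) [NormedAddCommGroup H] [InnerProductSpace ℂ H] (m : ℕ) :
    (PiLp 2 fun _ : Fin (m+1) => H) ≃ₗᵢ[ℂ] (PiLp 2 fun _ : Fin (m+1) => H) :=
  LinearIsometryEquiv.piLpCongrLeft 2 ℂ H (Equiv.addRight (1 : Fin (m+1))).symm

omit [CompleteSpace H] in
lemma cshift_apply (m : ℕ) (f : PiLp 2 fun _ : Fin (m+1) => H) (i : Fin (m+1)) :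
    cshift H m f i = f (i + 1) := by
  simp [cshift, LinearIsometryEquiv.piLpCongrLeft_apply, Equiv.piCongrLeft']

noncomputable def cshiftL (H : Type*) [NormedAddCommGroup H] [InnerProductSpace ℂ H] (m : ℕ) :
    (PiLp 2 fun _ : Fin (m+1) => H) →L[ℂ] (PiLp 2 fun _ : Fin (m+1) => H) :=
  (cshift H m).toContinuousLinearEquiv.toContinuousLinearMap

lemma cshiftL_unitary (m : ℕ) : cshiftL H m ∈ unitary ((PiLp 2 fun _ : Fin (m+1) => H) →L[ℂ]
    (PiLp 2 fun _ : Fin (m+1) => H)) := by
  rw [Unitary.mem_iff]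
  constructor
  · ext1 f
    apply ext_inner_right ℂ
    intro g
    simp only [ContinuousLinearMap.star_eq_adjoint, mul_apply_eq_comp,
      one_apply_eq_self]
    rw [ContinuousLinearMap.adjoint_inner_left]
    exact (cshift H m).inner_map_map f g
  · ext1 f
    apply ext_inner_right ℂ
    intro g
    simp only [ContinuousLinearMap.star_eq_adjoint, mul_apply_eq_comp,
      one_apply_eq_self]
    have key : ContinuousLinearMap.adjoint (cshiftL H m) f = (cshift H m).symm f := by
      apply ext_inner_right ℂ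
      intro h
      rw [ContinuousLinearMap.adjoint_inner_left]
      have := (cshift H m).inner_map_map ((cshift H m).symm f) h
      rw [LinearIsometryEquiv.apply_symm_apply] at this
      exact this
    rw [key]
    have : cshiftL H m ((cshift H m).symm f) = f := (cshift H m).apply_symm_apply f
    rw [this]

omit [CompleteSpace H] in
lemma cshiftL_pow_apply (m k : ℕ) (f : PiLp 2 fun _ : Fin (m+1) => H) (i : Fin (m+1)) :
    ((cshiftL H m) ^ k) f i = f ⟨((i : ℕ) + k) % (m+1), Nat.mod_lt _ (Nat.succ_pos m)⟩ := by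
  induction k generalizing i with
  | zero =>
    have e : (⟨((i : ℕ) + 0) % (m+1), Nat.mod_lt _ (Nat.succ_pos m)⟩ : Fin (m+1)) = i := by
      apply Fin.ext
      simp [Nat.mod_eq_of_lt i.2]
    rw [e, pow_zero, one_apply_eq_self]
  | succ k ih =>
    rw [pow_succ']
    have : ((cshiftL H m) * (cshiftL H m)^k) f i = cshift H m (((cshiftL H m)^k) f) i := rfl
    rw [this, cshift_apply, ih]
    have e : (⟨(((i + 1 : Fin (m+1)) : ℕ) + k) % (m+1), Nat.mod_lt _ (Nat.succ_pos m)⟩ : Fin (m+1))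
        = ⟨((i : ℕ) + (k+1)) % (m+1), Nat.mod_lt _ (Nat.succ_pos m)⟩ := by
      apply Fin.ext
      simp only [Fin.val_add, Fin.val_one', Nat.add_mod_mod, Nat.mod_add_mod]
      congr 1
      omega
    rw [e]

/-- the main inequality for isometries -/
theorem norm_aeval_isometry_le (W : H →ₗᵢ[ℂ] H) (p : ℂ[X]) (B : ℝ)
    (hB : ∀ z : ℂ, ‖z‖ = 1 → ‖p.eval z‖ ≤ B) (x : H) :
    ‖aeval W.toContinuousLinearMap p x‖ ≤ B * ‖x‖ := by
  have hB0 : 0 ≤ B := (norm_nonneg _).trans (hB 1 (by simp))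
  set d := p.natDegree with hd
  set V := W.toContinuousLinearMap with hV
  have hWn : ∀ (k : ℕ) (y : H), ‖(V ^ k) y‖ = ‖y‖ := by
    intro k
    induction k with
    | zero => intro y; simp
    | succ k ih =>
      intro y
      rw [pow_succ']
      have : (V * V ^ k) y = W ((V ^ k) y) := rfl
      rw [this, LinearIsometry.norm_map, ih]
  have main : ∀ m : ℕ, d ≤ m → ((m : ℝ) + 1 - d) * ‖aeval V p x‖ ^ 2 ≤ ((m:ℝ) + 1) * (B * ‖x‖) ^ 2 := by
    intro m hm
    let φ : PiLp 2 fun _ : Fin (m+1) => H := WithLp.toLp 2 (fun i => (V ^ (i : ℕ)) x)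
    have hφ : ∀ i, φ i = (V ^ (i : ℕ)) x := fun i => rfl
    have hφn : ‖φ‖ ^ 2 = ((m:ℝ) + 1) * ‖x‖ ^ 2 := by
      rw [PiLp.norm_sq_eq_of_L2]
      simp only [hφ, hWn]
      simp
    have h1 := norm_aeval_unitary_le (cshiftL H m) (cshiftL_unitary m) p B hB
    have h2 : ‖aeval (cshiftL H m) p φ‖ ≤ B * ‖φ‖ :=
      ContinuousLinearMap.le_of_opNorm_le _ h1 _
    have h3 : ∀ i : Fin (m+1), (i : ℕ) + d ≤ m → (aeval (cshiftL H m) p φ) i = (V ^ (i:ℕ)) (aeval V p x) := by
      intro i hi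
      rw [aeval_eq_sum_range, aeval_eq_sum_range]
      simp only [_root_.sum_apply, smul_apply, map_sum, map_smul]
      rw [WithLp.ofLp_sum, Finset.sum_apply]
      apply Finset.sum_congr rfl
      intro k hk
      rw [mem_range] at hk
      rw [WithLp.ofLp_smul, Pi.smul_apply, cshiftL_pow_apply, hφ]
      congr 1
      have e : ((i : ℕ) + k) % (m+1) = i + k := by
        rw [Nat.mod_eq_of_lt]
        omega
      simp only [e]
      rw [pow_add]
      rfl
    have h4 : ((m : ℝ) + 1 - d) * ‖aeval V p x‖ ^ 2 ≤ ‖aeval (cshiftL H m) p φ‖ ^ 2 := by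
      rw [PiLp.norm_sq_eq_of_L2]
      have hsub : ∑ i ∈ (univ.filter fun i : Fin (m+1) => (i:ℕ) + d ≤ m), ‖(aeval (cshiftL H m) p φ) i‖ ^ 2 ≤
          ∑ i, ‖(aeval (cshiftL H m) p φ) i‖ ^ 2 := by
        apply Finset.sum_le_sum_of_subset_of_nonneg (filter_subset _ _)
        intro i _ _
        positivity
      refine le_trans ?_ hsub
      have hconst : ∑ i ∈ (univ.filter fun i : Fin (m+1) => (i:ℕ) + d ≤ m), ‖(aeval (cshiftL H m) p φ) i‖ ^ 2
          = ∑ i ∈ (univ.filter fun i : Fin (m+1) => (i:ℕ) + d ≤ m), ‖aeval V p x‖ ^ 2 := by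
        apply Finset.sum_congr rfl
        intro i hi
        rw [mem_filter] at hi
        rw [h3 i hi.2, hWn]
      rw [hconst, Finset.sum_const, nsmul_eq_mul]
      apply mul_le_mul_of_nonneg_right _ (by positivity)
      have hcard : (univ.filter fun i : Fin (m+1) => (i:ℕ) + d ≤ m).card = m + 1 - d := by
        have : ((univ.filter fun i : Fin (m+1) => (i:ℕ) + d ≤ m).map Fin.valEmbedding)
            = range (m + 1 - d) := by
          ext i
          simp only [mem_map, mem_filter, mem_univ, true_and, Fin.valEmbedding_apply, mem_range]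
          constructor
          · rintro ⟨a, ha, rfl⟩
            omega
          · intro hi
            exact ⟨⟨i, by omega⟩, by simp; omega, rfl⟩
        rw [← card_map Fin.valEmbedding, this, card_range]
      rw [hcard, Nat.cast_sub (by omega)]
      push_cast
      exact le_refl _
    calc ((m : ℝ) + 1 - d) * ‖aeval V p x‖ ^ 2 ≤ ‖aeval (cshiftL H m) p φ‖ ^ 2 := h4
      _ ≤ (B * ‖φ‖) ^ 2 := by
          apply pow_le_pow_left₀ (norm_nonneg _) h2
      _ = ((m:ℝ) + 1) * (B * ‖x‖) ^ 2 := by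
          rw [mul_pow, hφn, mul_pow]; ring
  have hsq : ‖aeval V p x‖ ^ 2 ≤ (B * ‖x‖) ^ 2 := by
    by_contra hcon
    push Not at hcon
    set a := ‖aeval V p x‖ ^ 2
    set b := (B * ‖x‖) ^ 2
    obtain ⟨m, hm⟩ := exists_nat_gt (d * a / (a - b))
    have hab : 0 < a - b := by linarith
    rw [div_lt_iff₀ hab] at hm
    have h := main (m + d) (by omega)
    push_cast at h
    nlinarith
  exact (pow_le_pow_iff_left₀ (norm_nonneg _) (by positivity) (by norm_num)).mp hsq

end Pool.Agent.Lib.P605199
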