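import Mathlib
import Pool.Agent.Lib.P605199.Norm
import Pool.Agent.Lib.P605199.VonNeumann

/-!
# The polynomials attached to the digit sets
-/

open Finset Polynomial

namespace Pool.Agent.Lib.P605199

noncomputable section

/-- averaged power polynomial of the digit set -/
def Qj (j : ℕ) : ℂ[X] := C (((Aset j).card : ℂ)⁻¹) * ∑ a ∈ Aset j, X ^ a

/-- product polynomial with the factor `1 - X` -/
def Pj (J0 J : ℕ) : ℂ[X] := (1 - X) * ∏ j ∈ Ico J0 J, Qj j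

lemma Qj_eval (j : ℕ) (z : ℂ) : (Qj j).eval z = ((Aset j).card : ℂ)⁻¹ * ∑ a ∈ Aset j, z ^ a := by
  simp [Qj, eval_finset_sum]

lemma Qj_norm_le_one (j : ℕ) {z : ℂ} (hz : ‖z‖ = 1) : ‖(Qj j).eval z‖ ≤ 1 := by
  rw [Qj_eval, norm_mul, norm_inv]
  have h1 : ‖∑ a ∈ Aset j, z ^ a‖ ≤ (Aset j).card := by
    refine (norm_sum_le _ _).trans ?_
    simp [norm_pow, hz]
  have h2 := Aset_card j
  have h3 : (0:ℝ) < (Aset j).card := by
    have : 0 < (Aset j).card := by omega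
    exact_mod_cast this
  rw [Complex.norm_natCast, inv_mul_le_iff₀ h3, mul_one]
  exact h1

lemma exists_theta {z : ℂ} (hz : ‖z‖ = 1) : ∃ θ : ℝ, 0 ≤ θ ∧ θ < 1 ∧ ∀ n : ℕ, ee θ n = z ^ n := by
  refine ⟨Int.fract (z.arg / (2 * Real.pi)), Int.fract_nonneg _, Int.fract_lt_one _, ?_⟩
  intro n
  rw [ee_eq_pow]
  congr 1
  have h1 : z = Complex.exp (z.arg * Complex.I) := by
    have := Complex.norm_mul_exp_arg_mul_I z
    rw [hz] at this
    simpa using this.symm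
  conv_rhs => rw [h1]
  have h2 : Int.fract (z.arg / (2 * Real.pi)) = z.arg / (2 * Real.pi) - ⌊z.arg / (2 * Real.pi)⌋ := rfl
  rw [h2, Complex.exp_eq_exp_iff_exists_int]
  refine ⟨-⌊z.arg / (2 * Real.pi)⌋, ?_⟩
  push_cast
  have hpi : (Real.pi : ℂ) ≠ 0 := by exact_mod_cast Real.pi_ne_zero
  field_simp
  ring

lemma Qj_norm_le_half (j : ℕ) {θ : ℝ} {z : ℂ} (hθ : ∀ n : ℕ, ee θ n = z ^ n)
    (h1 : 1/((j:ℝ)+2) ≤ θ) (h2 : θ ≤ 1 - 1/((j:ℝ)+2)) : ‖(Qj j).eval z‖ ≤ 1/2 := by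
  rw [Qj_eval, norm_mul, norm_inv]
  have h4 := Aset_four j θ h1 h2
  simp_rw [hθ] at h4
  have h5 := Aset_card j
  have h3 : (0:ℝ) < (Aset j).card := by
    have : 0 < (Aset j).card := by omega
    exact_mod_cast this
  rw [Complex.norm_natCast, inv_mul_le_iff₀ h3]
  linarith

lemma Pj_small (J0 : ℕ) {ε : ℝ} (hε : 0 < ε) : ∃ J, J0 ≤ J ∧ ∀ z : ℂ, ‖z‖ = 1 →
    ‖(Pj J0 J).eval z‖ ≤ ε := by
  -- choose threshold
  obtain ⟨j1, hj1⟩ := exists_nat_gt (8 / ε)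
  obtain ⟨n, hn⟩ := exists_pow_lt_of_lt_one (show 0 < ε/2 by linarith) (show (1/2:ℝ) < 1 by norm_num)
  set j2 := max J0 j1 with hj2
  refine ⟨j2 + n, by omega, ?_⟩
  intro z hz
  obtain ⟨θ, h0, h1, hθ⟩ := exists_theta hz
  have hPeval : (Pj J0 (j2+n)).eval z = (1 - z) * ∏ j ∈ Ico J0 (j2+n), (Qj j).eval z := by
    simp [Pj, eval_prod]
  rw [hPeval, norm_mul, norm_prod]
  have hprod1 : ∏ j ∈ Ico J0 (j2+n), ‖(Qj j).eval z‖ ≤ 1 :=
    Finset.prod_le_one (fun _ _ => norm_nonneg _) (fun j _ => Qj_norm_le_one j hz)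
  have hprod0 : 0 ≤ ∏ j ∈ Ico J0 (j2+n), ‖(Qj j).eval z‖ :=
    Finset.prod_nonneg fun _ _ => norm_nonneg _
  have h1z : (1 : ℂ) - z = 1 - ee θ 1 := by rw [hθ, pow_one]
  have hj2pos : (0:ℝ) < (j2:ℝ) + 2 := by positivity
  have hj1' : 8 / ε < (j2 : ℝ) + 2 := by
    have : (j1 : ℝ) ≤ j2 := by exact_mod_cast le_max_right _ _
    linarith
  have hsmall : 8 * (1/((j2:ℝ)+2)) ≤ ε := by
    rw [mul_one_div, div_le_iff₀ hj2pos]
    rw [div_lt_iff₀ hε] at hj1'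
    linarith
  by_cases hmid : 1/((j2:ℝ)+2) ≤ θ ∧ θ ≤ 1 - 1/((j2:ℝ)+2)
  · -- all factors after j2 are at most 1/2
    have hhalf : ∀ j ∈ Ico j2 (j2+n), ‖(Qj j).eval z‖ ≤ 1/2 := by
      intro j hj
      rw [mem_Ico] at hj
      have hjj : 1/((j:ℝ)+2) ≤ 1/((j2:ℝ)+2) := by
        apply one_div_le_one_div_of_le hj2pos
        have : (j2:ℝ) ≤ j := by exact_mod_cast hj.1
        linarith
      exact Qj_norm_le_half j hθ (by linarith [hmid.1]) (by linarith [hmid.2])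
    have hsplit : ∏ j ∈ Ico J0 (j2+n), ‖(Qj j).eval z‖ =
        (∏ j ∈ Ico J0 j2, ‖(Qj j).eval z‖) * ∏ j ∈ Ico j2 (j2+n), ‖(Qj j).eval z‖ :=
      (Finset.prod_Ico_consecutive _ (le_max_left _ _) (by omega)).symm
    have hb1 : ∏ j ∈ Ico J0 j2, ‖(Qj j).eval z‖ ≤ 1 :=
      Finset.prod_le_one (fun _ _ => norm_nonneg _) (fun j _ => Qj_norm_le_one j hz)
    have hb2 : ∏ j ∈ Ico j2 (j2+n), ‖(Qj j).eval z‖ ≤ (1/2)^n := by
      calc _ ≤ ∏ j ∈ Ico j2 (j2+n), (1/2 : ℝ) :=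
            Finset.prod_le_prod (fun _ _ => norm_nonneg _) hhalf
        _ = (1/2)^n := by simp
    have hb3 : 0 ≤ ∏ j ∈ Ico j2 (j2+n), ‖(Qj j).eval z‖ := Finset.prod_nonneg fun _ _ => norm_nonneg _
    have h2 : ‖(1:ℂ) - z‖ ≤ 2 := by
      refine (norm_sub_le _ _).trans ?_
      rw [hz]; norm_num
    calc ‖(1:ℂ) - z‖ * ∏ j ∈ Ico J0 (j2+n), ‖(Qj j).eval z‖ ≤ 2 * (1 * (1/2)^n) := by
          apply mul_le_mul h2 _ hprod0 (by norm_num)
          rw [hsplit]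
          exact mul_le_mul hb1 hb2 hb3 (by norm_num)
      _ ≤ ε := by linarith
  · -- θ is close to 0 or 1
    have hclose : ‖(1:ℂ) - z‖ ≤ ε := by
      rw [h1z, norm_one_sub_ee]
      have hbound : |Real.sin (Real.pi * θ)| ≤ 4 * (1/((j2:ℝ)+2)) := by
        by_cases ha : 1/((j2:ℝ)+2) ≤ θ
        · have hb : 1 - 1/((j2:ℝ)+2) < θ := by
            by_contra hcon
            push Not at hcon
            exact hmid ⟨ha, hcon⟩
          have e : Real.sin (Real.pi * θ) = Real.sin (Real.pi * (1 - θ)) := by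
            rw [← Real.sin_pi_sub]; congr 1; ring
          rw [e]
          refine (Real.abs_sin_le_abs).trans ?_
          rw [abs_mul, abs_of_pos Real.pi_pos, abs_of_nonneg (by linarith)]
          have := Real.pi_le_four
          have h1θ : 1 - θ ≤ 1/((j2:ℝ)+2) := by linarith
          have : 0 ≤ 1 - θ := by linarith
          nlinarith [Real.pi_pos]
        · push Not at ha
          refine (Real.abs_sin_le_abs).trans ?_
          rw [abs_mul, abs_of_pos Real.pi_pos, abs_of_nonneg h0]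
          have := Real.pi_le_four
          nlinarith [Real.pi_pos]
      linarith
    calc ‖(1:ℂ) - z‖ * ∏ j ∈ Ico J0 (j2+n), ‖(Qj j).eval z‖ ≤ ε * 1 :=
          mul_le_mul hclose hprod1 hprod0 hε.le
      _ = ε := mul_one ε

lemma Qj_map_conj (j : ℕ) : (Qj j).map (starRingEnd ℂ) = Qj j := by
  simp [Qj, Polynomial.map_sum]

lemma Pj_map_conj (J0 J : ℕ) : (Pj J0 J).map (starRingEnd ℂ) = Pj J0 J := by
  simp [Pj, Polynomial.map_prod, Qj_map_conj]

variable {H : Type*} [NormedAddCommGroup H] [InnerProductSpace ℂ H] [CompleteSpace H]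

lemma star_aeval (V : H →L[ℂ] H) (p : ℂ[X]) :
    star (aeval V p) = aeval (star V) (p.map (starRingEnd ℂ)) := by
  induction p using Polynomial.induction_on' with
  | add p q hp hq => simp [hp, hq]
  | monomial n a => simp [aeval_monomial, Algebra.algebraMap_eq_smul_one]

/-- polynomial bound for adjoints of isometries -/
lemma norm_aeval_coisometry_le (W : H →ₗᵢ[ℂ] H) (p : ℂ[X]) (hp : p.map (starRingEnd ℂ) = p) (B : ℝ)
    (hB : ∀ z : ℂ, ‖z‖ = 1 → ‖p.eval z‖ ≤ B) (x : H) :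
    ‖aeval (star W.toContinuousLinearMap) p x‖ ≤ B * ‖x‖ := by
  have hB0 : 0 ≤ B := (norm_nonneg _).trans (hB 1 (by simp))
  have h1 : ‖aeval (star W.toContinuousLinearMap) p‖ = ‖aeval W.toContinuousLinearMap p‖ := by
    have := star_aeval W.toContinuousLinearMap p
    rw [hp] at this
    rw [← this, norm_star]
  have h2 : ‖aeval W.toContinuousLinearMap p‖ ≤ B :=
    ContinuousLinearMap.opNorm_le_bound _ hB0 (norm_aeval_isometry_le W p B hB)
  exact ContinuousLinearMap.le_of_opNorm_le _ (h1.trans_le h2) x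

end

end Pool.Agent.Lib.P605199
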