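import Mathlib
import Pool.Agent.Lib.P605199.Meas
import Pool.Agent.Lib.P605199.Poly

/-!
# Ergodicity of products with probability-preserving systems
-/

open Finset MeasureTheory Polynomial
open scoped ENNReal

namespace Pool.Agent.Lib.P605199

noncomputable section

/-- the rotation -/
def Tz (g : Gx) : Gx := zi 1 + g

lemma measurable_Tz : Measurable Tz := measurable_const_add _

lemma mp_Tz : MeasurePreserving Tz mu mu := by
  refine ⟨measurable_Tz, ?_⟩
  ext E hE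
  rw [Measure.map_apply measurable_Tz hE]
  exact mu_translate hE

/-- zero-one law -/
lemma zero_one (E : Set Gx) (hE : MeasurableSet E) (c : ℝ≥0∞)
    (hc : ∀ (J : ℕ) (m : ℤ), kk J m E = c) : c = 0 ∨ c = 1 := by
  by_cases h0 : c = 0
  · exact Or.inl h0
  right
  have hc1 : c ≤ 1 := by
    rw [← hc 0 0]
    exact prob_le_one
  have hctop : c ≠ ∞ := (hc1.trans_lt ENNReal.one_lt_top).ne
  set A : Set Om := {x | Phi 0 x ∈ E} with hA
  have hAm : MeasurableSet A := (measurable_Phi 0) hE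
  have hPA : Pm A = c := by
    rw [← hc 0 0, kk_eq hE]
    simp [hA]
  have hcyl : ∀ (s : Finset ℕ) (t : (j : ℕ) → Set (Aset j)), (∀ i ∈ s, MeasurableSet (t i)) →
      Pm (Set.pi s t ∩ A) = c * Pm (Set.pi s t) := by
    intro s t ht
    obtain ⟨J, hJ⟩ : ∃ J, ∀ i ∈ s, i < J := by
      refine ⟨s.sup id + 1, fun i hi => ?_⟩
      have : i ≤ s.sup id := Finset.le_sup (f := id) hi
      omega
    have hpm : MeasurableSet (Set.pi (s : Set ℕ) t) := .pi s.countable_toSet fun i hi => ht i hi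
    have hmeas : MeasurableSet (Set.pi (s : Set ℕ) t ∩ A) := hpm.inter hAm
    conv_lhs => rw [← map_splice J, Measure.map_apply (measurable_splice J) hmeas]
    have e : splice J ⁻¹' (Set.pi (s : Set ℕ) t ∩ A) = {p : Om × Om | p.1 ∈ Set.pi (s : Set ℕ) t ∧
        zi (∑ j ∈ Ico 0 J, ((p.1 j : ℕ) : ℤ)) + Phi J p.2 ∈ E} := by
      ext p
      simp only [Set.mem_preimage, Set.mem_inter_iff, Set.mem_ofPred_eq, hA]
      rw [Phi_split (Nat.zero_le J), Phi_splice (le_refl J)]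
      have h1 : ∑ j ∈ Ico 0 J, ((splice J p j : ℕ) : ℤ) = ∑ j ∈ Ico 0 J, ((p.1 j : ℕ) : ℤ) := by
        apply Finset.sum_congr rfl
        intro j hj
        rw [mem_Ico] at hj
        simp [splice, hj.2]
      rw [h1]
      have h2 : splice J p ∈ Set.pi (s : Set ℕ) t ↔ p.1 ∈ Set.pi (s : Set ℕ) t := by
        simp only [Set.mem_pi, mem_coe]
        refine forall₂_congr fun i hi => ?_
        simp [splice, hJ i hi]
      rw [h2]
    have hm2 := (measurable_splice J) hmeas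
    rw [e] at hm2 ⊢
    rw [Measure.prod_apply hm2]
    have h3 : ∀ x : Om, Pm (Prod.mk x ⁻¹' {p : Om × Om | p.1 ∈ Set.pi (s : Set ℕ) t ∧
        zi (∑ j ∈ Ico 0 J, ((p.1 j : ℕ) : ℤ)) + Phi J p.2 ∈ E})
        = (Set.pi (s : Set ℕ) t).indicator (fun _ => c) x := by
      intro x
      by_cases hx : x ∈ Set.pi (s : Set ℕ) t
      · rw [Set.indicator_of_mem hx, ← hc J (∑ j ∈ Ico 0 J, ((x j : ℕ) : ℤ)), kk_eq hE]
        congr 1
        ext y
        simp only [Set.mem_preimage, Set.mem_ofPred_eq]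
        exact ⟨fun h => h.2, fun h => ⟨hx, h⟩⟩
      · rw [Set.indicator_of_notMem hx]
        convert measure_empty (μ := Pm)
        ext y
        simp only [Set.mem_preimage, Set.mem_ofPred_eq, Set.mem_empty_iff_false, iff_false]
        exact fun h => hx h.1
    simp_rw [h3]
    rw [lintegral_indicator hpm]
    simp
  have hν : c⁻¹ • Pm.restrict A = Pm := by
    conv_rhs => rw [Pm]
    apply Measure.eq_infinitePi
    intro s t ht
    have ht' : ∀ i ∈ s, MeasurableSet (t i) := fun i _ => ht i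
    have hpm : MeasurableSet (Set.pi (s : Set ℕ) t) := .pi s.countable_toSet fun i hi => ht' i hi
    rw [Measure.smul_apply, Measure.restrict_apply hpm, hcyl s t ht', smul_eq_mul, ← mul_assoc,
      ENNReal.inv_mul_cancel h0 hctop, one_mul]
    unfold Pm
    exact Measure.infinitePi_pi _ (fun i hi => ht' i hi)
  have h4 : Pm Aᶜ = 0 := by
    rw [← hν, Measure.smul_apply, Measure.restrict_apply hAm.compl]
    simp
  have h5 := prob_compl_eq_one_sub hAm (μ := Pm)
  rw [h4, hPA] at h5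
  exact le_antisymm hc1 (tsub_eq_zero_iff_le.mp h5.symm)

section erg

variable {Z : Type*} [MeasurableSpace Z] (ρ : Measure Z) [IsProbabilityMeasure ρ] (S : Z → Z)

/-- the section masses -/
def Hf (E : Set (Gx × Z)) (J : ℕ) (m : ℤ) (z : Z) : ℝ :=
  (kk J m {g | (g, z) ∈ E}).toReal

lemma measurableSet_sec {E : Set (Gx × Z)} (hE : MeasurableSet E) (z : Z) :
    MeasurableSet {g | (g, z) ∈ E} := measurable_prodMk_right hE

lemma kk_le_one (J : ℕ) (m : ℤ) (E : Set Gx) : kk J m E ≤ 1 := prob_le_one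

lemma kk_ne_top (J : ℕ) (m : ℤ) (E : Set Gx) : kk J m E ≠ ∞ :=
  ((kk_le_one J m E).trans_lt ENNReal.one_lt_top).ne

lemma measurable_kk {E : Set (Gx × Z)} (hE : MeasurableSet E) (J : ℕ) (m : ℤ) :
    Measurable fun z => kk J m {g | (g, z) ∈ E} := by
  have h1 : MeasurableSet {p : Gx × Z | (zi m + p.1, p.2) ∈ E} := by
    have : Measurable fun p : Gx × Z => (zi m + p.1, p.2) :=
      (measurable_fst.const_add _).prodMk measurable_snd
    exact this hE
  exact measurable_measure_prodMk_right h1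

lemma measurable_Hf {E : Set (Gx × Z)} (hE : MeasurableSet E) (J : ℕ) (m : ℤ) :
    Measurable (Hf E J m) := (measurable_kk hE J m).ennreal_toReal

lemma Hf_nonneg (E : Set (Gx × Z)) (J : ℕ) (m : ℤ) (z : Z) : 0 ≤ Hf E J m z :=
  ENNReal.toReal_nonneg

lemma Hf_le_one (E : Set (Gx × Z)) (J : ℕ) (m : ℤ) (z : Z) : Hf E J m z ≤ 1 :=
  ENNReal.toReal_le_of_le_ofReal zero_le_one (by simpa using kk_le_one J m _)

lemma Hf_shift {E : Set (Gx × Z)} (hinv : Prod.map Tz S ⁻¹' E = E) (J : ℕ) (m : ℤ) (z : Z) :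
    Hf E J (m+1) (S z) = Hf E J m z := by
  unfold Hf kk
  congr 2
  ext g
  simp only [Set.mem_ofPred_eq]
  conv_rhs => rw [← hinv]
  simp only [Set.mem_preimage, Prod.map_apply, Tz]
  rw [← add_assoc, ← map_add, add_comm 1 m]

lemma Hf_rec {E : Set (Gx × Z)} (hE : MeasurableSet E) (J : ℕ) (m : ℤ) (z : Z) :
    Hf E J m z = ((Aset J).card : ℝ)⁻¹ * ∑ a ∈ Aset J, Hf E (J+1) (m + a) z := by
  unfold Hf
  rw [kk_rec (measurableSet_sec hE z), ENNReal.toReal_mul, ENNReal.toReal_inv,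
    ENNReal.toReal_natCast, ENNReal.toReal_sum (fun a _ => kk_ne_top _ _ _)]

lemma memLp_Hf {E : Set (Gx × Z)} (hE : MeasurableSet E) (J : ℕ) (m : ℤ) :
    MemLp (fun z => (Hf E J m z : ℂ)) 2 ρ := by
  apply MemLp.of_bound (C := 1)
  · exact (Complex.measurable_ofReal.comp (measurable_Hf hE J m)).aestronglyMeasurable
  · refine Filter.Eventually.of_forall fun z => ?_
    rw [Complex.norm_real, Real.norm_eq_abs, abs_of_nonneg (Hf_nonneg E J m z)]
    exact Hf_le_one E J m z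

/-- the L2 class -/
def hv (E : Set (Gx × Z)) (hE : MeasurableSet E) (J : ℕ) (m : ℤ) : Lp ℂ 2 ρ :=
  (memLp_Hf ρ hE J m).toLp _

lemma norm_hv_le (E : Set (Gx × Z)) (hE : MeasurableSet E) (J : ℕ) (m : ℤ) :
    ‖hv ρ E hE J m‖ ≤ 1 := by
  have := Lp.norm_le_of_ae_bound (f := hv ρ E hE J m) (C := 1) zero_le_one (by
    filter_upwards [(memLp_Hf ρ hE J m).coeFn_toLp] with z hz
    unfold hv
    rw [hz, Complex.norm_real, Real.norm_eq_abs, abs_of_nonneg (Hf_nonneg E J m z)]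
    exact Hf_le_one E J m z)
  have hu : measureUnivNNReal ρ = 1 := by simp [measureUnivNNReal]
  simpa [hu] using this

variable {S}

/-- Koopman isometry -/
def Uk (hS : MeasurePreserving S ρ ρ) : Lp ℂ 2 ρ →ₗᵢ[ℂ] Lp ℂ 2 ρ :=
  Lp.compMeasurePreservingₗᵢ ℂ S hS

lemma Uk_hv (hS : MeasurePreserving S ρ ρ) {E : Set (Gx × Z)} (hE : MeasurableSet E)
    (hinv : Prod.map Tz S ⁻¹' E = E) (J : ℕ) (m : ℤ) :
    Uk ρ hS (hv ρ E hE J (m+1)) = hv ρ E hE J m := by
  unfold Uk hv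
  change Lp.compMeasurePreserving S hS _ = _
  rw [Lp.toLp_compMeasurePreserving]
  congr 1
  ext z
  simp only [Function.comp_apply]
  rw [Hf_shift S hinv]

/-- backward operator -/
def Vk (hS : MeasurePreserving S ρ ρ) : Lp ℂ 2 ρ →L[ℂ] Lp ℂ 2 ρ :=
  star (Uk ρ hS).toContinuousLinearMap

lemma Vk_Uk (hS : MeasurePreserving S ρ ρ) (f : Lp ℂ 2 ρ) : Vk ρ hS (Uk ρ hS f) = f := by
  unfold Vk
  rw [ContinuousLinearMap.star_eq_adjoint]
  apply ext_inner_left ℂ
  intro g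
  rw [ContinuousLinearMap.adjoint_inner_right]
  exact (Uk ρ hS).inner_map_map g f

lemma Vk_hv (hS : MeasurePreserving S ρ ρ) {E : Set (Gx × Z)} (hE : MeasurableSet E)
    (hinv : Prod.map Tz S ⁻¹' E = E) (J : ℕ) (m : ℤ) :
    Vk ρ hS (hv ρ E hE J m) = hv ρ E hE J (m+1) := by
  rw [← Uk_hv ρ hS hE hinv, Vk_Uk]

lemma Vk_pow_hv (hS : MeasurePreserving S ρ ρ) {E : Set (Gx × Z)} (hE : MeasurableSet E)
    (hinv : Prod.map Tz S ⁻¹' E = E) (J : ℕ) (m : ℤ) (n : ℕ) :
    (Vk ρ hS ^ n) (hv ρ E hE J m) = hv ρ E hE J (m + n) := by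
  induction n with
  | zero => simp
  | succ n ih =>
    rw [pow_succ', mul_apply_eq_comp, ih, Vk_hv ρ hS hE hinv]
    congr 1
    push_cast
    ring

lemma hv_rec (hS : MeasurePreserving S ρ ρ) {E : Set (Gx × Z)} (hE : MeasurableSet E)
    (hinv : Prod.map Tz S ⁻¹' E = E) (J : ℕ) (m : ℤ) :
    hv ρ E hE J m = aeval (Vk ρ hS) (Qj J) (hv ρ E hE (J+1) m) := by
  have h1 : aeval (Vk ρ hS) (Qj J) (hv ρ E hE (J+1) m)
      = ((Aset J).card : ℂ)⁻¹ • ∑ a ∈ Aset J, hv ρ E hE (J+1) (m + a) := by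
    unfold Qj
    rw [map_mul, aeval_C, Algebra.algebraMap_eq_smul_one, smul_mul_assoc, one_mul, map_sum,
      _root_.smul_apply, _root_.sum_apply]
    congr 1
    apply Finset.sum_congr rfl
    intro a _
    rw [map_pow, aeval_X, Vk_pow_hv ρ hS hE hinv]
  rw [h1]
  apply Lp.ext
  have h2 : ∀ᵐ z ∂ρ, ∀ a : ℕ, (hv ρ E hE (J+1) (m + a) : Z → ℂ) z = (Hf E (J+1) (m+a) z : ℂ) := by
    rw [ae_all_iff]
    intro a
    exact (memLp_Hf ρ hE (J+1) (m+a)).coeFn_toLp
  have h3 : (hv ρ E hE J m : Z → ℂ) =ᵐ[ρ] fun z => (Hf E J m z : ℂ) :=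
    (memLp_Hf ρ hE J m).coeFn_toLp
  have h4 := Lp.coeFn_smul ((Aset J).card : ℂ)⁻¹ (∑ a ∈ Aset J, hv ρ E hE (J+1) (m + a))
  have h5 := Lp.coeFn_finsetSum (Aset J) (fun a : ℕ => hv ρ E hE (J+1) (m + a))
  filter_upwards [h2, h3, h4, h5] with z h2 h3 h4 h5
  rw [h3, h4, Pi.smul_apply, h5, Hf_rec hE]
  simp [h2]

lemma hv_prod (hS : MeasurePreserving S ρ ρ) {E : Set (Gx × Z)} (hE : MeasurableSet E)
    (hinv : Prod.map Tz S ⁻¹' E = E) (J0 : ℕ) (m : ℤ) (J : ℕ) (hJ : J0 ≤ J) :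
    hv ρ E hE J0 m = aeval (Vk ρ hS) (∏ j ∈ Ico J0 J, Qj j) (hv ρ E hE J m) := by
  induction J, hJ using Nat.le_induction with
  | base => simp
  | succ n hn ih =>
    rw [ih, hv_rec ρ hS hE hinv n m, Finset.prod_Ico_succ_top hn, map_mul, mul_apply_eq_comp]

lemma hv_fixed (hS : MeasurePreserving S ρ ρ) {E : Set (Gx × Z)} (hE : MeasurableSet E)
    (hinv : Prod.map Tz S ⁻¹' E = E) (J : ℕ) (m : ℤ) :
    hv ρ E hE J (m+1) = hv ρ E hE J m := by
  have h1 : ∀ ε : ℝ, 0 < ε → ‖hv ρ E hE J m - hv ρ E hE J (m+1)‖ ≤ ε := by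
    intro ε hε
    obtain ⟨J', hJ', hP⟩ := Pj_small J hε
    have h2 : hv ρ E hE J m - hv ρ E hE J (m+1)
        = aeval (Vk ρ hS) (Pj J J') (hv ρ E hE J' m) := by
      unfold Pj
      rw [map_mul, mul_apply_eq_comp, map_sub, map_one, aeval_X, ← Vk_hv ρ hS hE hinv,
        _root_.sub_apply]
      have := hv_prod ρ hS hE hinv J m J' hJ'
      change _ = (1 : Lp ℂ 2 ρ →L[ℂ] Lp ℂ 2 ρ) (aeval (Vk ρ hS) (∏ j ∈ Ico J J', Qj j) (hv ρ E hE J' m))
        - Vk ρ hS (aeval (Vk ρ hS) (∏ j ∈ Ico J J', Qj j) (hv ρ E hE J' m))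
      rw [← this]
      rfl
    rw [h2]
    have h3 := norm_aeval_coisometry_le (Uk ρ hS) (Pj J J') (Pj_map_conj J J') ε hP (hv ρ E hE J' m)
    refine h3.trans ?_
    have := norm_hv_le ρ E hE J' m
    nlinarith
  have h4 : ‖hv ρ E hE J m - hv ρ E hE J (m+1)‖ ≤ 0 := by
    by_contra hcon
    push Not at hcon
    have := h1 _ (half_pos hcon)
    linarith
  have h5 := norm_le_zero_iff.mp h4
  exact (sub_eq_zero.mp h5).symm

lemma Hf_ae_shift (hS : MeasurePreserving S ρ ρ) {E : Set (Gx × Z)} (hE : MeasurableSet E)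
    (hinv : Prod.map Tz S ⁻¹' E = E) (J : ℕ) (m : ℤ) :
    Hf E J (m+1) =ᵐ[ρ] Hf E J m := by
  have h := hv_fixed ρ hS hE hinv J m
  have h1 : (hv ρ E hE J (m+1) : Z → ℂ) =ᵐ[ρ] fun z => (Hf E J (m+1) z : ℂ) :=
    (memLp_Hf ρ hE J (m+1)).coeFn_toLp
  have h2 : (hv ρ E hE J m : Z → ℂ) =ᵐ[ρ] fun z => (Hf E J m z : ℂ) :=
    (memLp_Hf ρ hE J m).coeFn_toLp
  rw [h] at h1
  filter_upwards [h1, h2] with z h1 h2
  rw [h2] at h1
  exact (Complex.ofReal_injective h1).symm

lemma exists_const (hS : Ergodic S ρ) {E : Set (Gx × Z)} (hE : MeasurableSet E)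
    (hinv : Prod.map Tz S ⁻¹' E = E) :
    ∃ c : ℝ, ∀ᵐ z ∂ρ, ∀ (J : ℕ) (m : ℤ), Hf E J m z = c := by
  have hmp := hS.toMeasurePreserving
  have h0 : ∀ J : ℕ, ∃ c : ℝ, Hf E J 0 =ᵐ[ρ] Function.const Z c := by
    intro J
    apply hS.ae_eq_const_of_ae_eq_comp_ae (measurable_Hf hE J 0).aestronglyMeasurable
    have h1 := Hf_ae_shift ρ hmp hE hinv J 0
    have h2 := hmp.quasiMeasurePreserving.ae_eq_comp h1
    filter_upwards [h2] with z h2
    rw [← h2, Function.comp_apply, Hf_shift S hinv]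
  choose c hc using h0
  have hshift : ∀ (J : ℕ) (m : ℤ), Hf E J m =ᵐ[ρ] Hf E J 0 := by
    intro J m
    induction m using Int.induction_on with
    | zero => exact Filter.EventuallyEq.refl _ _
    | succ n ih => exact (Hf_ae_shift ρ hmp hE hinv J n).trans ih
    | pred n ih =>
      have h1 := Hf_ae_shift ρ hmp hE hinv J (-(n:ℤ) - 1)
      rw [sub_add_cancel] at h1
      exact h1.symm.trans ih
  have hall : ∀ (J : ℕ) (m : ℤ), Hf E J m =ᵐ[ρ] Function.const Z (c J) :=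
    fun J m => (hshift J m).trans (hc J)
  have hcs : ∀ J, c J = c (J+1) := by
    intro J
    have h1 : ∀ᵐ z ∂ρ, ∀ a : ℕ, Hf E (J+1) (0 + a) z = c (J+1) := by
      rw [ae_all_iff]
      intro a
      exact hall (J+1) (0 + a)
    have h2 := hall J 0
    have h3 : ∀ᵐ z ∂ρ, c J = c (J+1) := by
      filter_upwards [h1, h2] with z h1 h2
      rw [Function.const_apply] at h2
      rw [← h2, Hf_rec hE]
      simp_rw [h1]
      rw [Finset.sum_const, nsmul_eq_mul]
      have h5 := Aset_card J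
      have h3 : ((Aset J).card : ℝ) ≠ 0 := by
        have : (Aset J).card ≠ 0 := by omega
        exact_mod_cast this
      field_simp
    obtain ⟨z, hz⟩ := h3.exists
    exact hz
  have hc0 : ∀ J, c J = c 0 := by
    intro J
    induction J with
    | zero => rfl
    | succ J ih => rw [← hcs J, ih]
  refine ⟨c 0, ?_⟩
  rw [ae_all_iff]
  intro J
  rw [ae_all_iff]
  intro m
  have := hall J m
  rw [hc0 J] at this
  exact this

lemma mu_zero_of {E : Set Gx} (hE : MeasurableSet E) (h : ∀ (J : ℕ) (m : ℤ), kk J m E = 0) :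
    mu E = 0 := by
  rw [mu_apply hE]
  apply le_antisymm _ zero_le
  apply iSup_le
  intro J
  rw [muJ_apply J hE]
  simp [h]

/-- the rotation is weakly mixing -/
theorem prod_ergodic (hsf : SFinite mu) (hS : Ergodic S ρ) :
    Ergodic (Prod.map Tz S) (mu.prod ρ) := by
  have hmp := hS.toMeasurePreserving
  refine ⟨mp_Tz.prod hmp, ⟨?_⟩⟩
  intro E hE hinv
  obtain ⟨c, hc⟩ := exists_const ρ hS hE hinv
  have hkk : ∀ᵐ z ∂ρ, ∀ (J : ℕ) (m : ℤ), kk J m {g | (g, z) ∈ E} = ENNReal.ofReal c := by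
    filter_upwards [hc] with z hz J m
    rw [← hz J m]
    unfold Hf
    rw [ENNReal.ofReal_toReal (kk_ne_top _ _ _)]
  obtain ⟨z0, hz0⟩ := hkk.exists
  have h01 := zero_one _ (measurableSet_sec hE z0) _ hz0
  rw [Filter.eventuallyConst_set']
  rcases h01 with h01 | h01
  · left
    rw [ae_eq_empty, Measure.prod_apply_symm hE, lintegral_eq_zero_iff
      (measurable_measure_prodMk_right hE)]
    filter_upwards [hkk] with z hz
    rw [h01] at hz
    exact mu_zero_of (measurableSet_sec hE z) hz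
  · right
    rw [ae_eq_univ, Measure.prod_apply_symm hE.compl, lintegral_eq_zero_iff
      (measurable_measure_prodMk_right hE.compl)]
    filter_upwards [hkk] with z hz
    rw [h01] at hz
    have hm := measurableSet_sec hE z
    apply mu_zero_of (measurableSet_sec hE.compl z)
    intro J m
    have h1 := hz J m
    unfold kk at h1 ⊢
    have h2 := prob_compl_eq_one_sub (μ := kap J) (measurableSet_translate hm m)
    rw [h1, tsub_self] at h2
    exact h2

end erg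

end

end Pool.Agent.Lib.P605199
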