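import Mathlib
import Pool.Agent.Lib.P605199.Meas

/-!
# Properties of the invariant measure: sigma-finite, atomless, infinite, positive on balls
-/

open Finset MeasureTheory
open scoped ENNReal

namespace Pool.Agent.Lib.P605199

noncomputable section

/-- Injectivity of the coding. -/
lemma inj_code {J : ℕ} {k : ℤ} (hk : |k| ≤ 2 * Lb J) (x x' : Om)
    (h : zi k + Phi J x - Phi J x' = 0) : k = 0 ∧ ∀ j, J ≤ j → x j = x' j := by
  have hup : ∀ n, J ≤ n → nrm (k + ∑ j ∈ Ico J n, (((x j : ℕ) : ℤ) - ((x' j : ℕ) : ℤ))) ≤ 4 * (1/2 : ℝ)^n := by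
    intro n hn
    rw [← norm_zi]
    have e : zi (k + ∑ j ∈ Ico J n, (((x j : ℕ) : ℤ) - ((x' j : ℕ) : ℤ))) = Phi n x' - Phi n x := by
      rw [Finset.sum_sub_distrib, map_add, map_sub]
      have h1 := Phi_split hn x
      have h2 := Phi_split hn x'
      rw [h1, h2] at h
      have : zi k + (zi (∑ j ∈ Ico J n, ((x j : ℕ) : ℤ)) - zi (∑ j ∈ Ico J n, ((x' j : ℕ) : ℤ)))
        - (Phi n x' - Phi n x) = 0 := by
        rw [← h]; abel
      exact sub_eq_zero.mp this
    rw [e]
    calc ‖Phi n x' - Phi n x‖ ≤ ‖Phi n x'‖ + ‖Phi n x‖ := norm_sub_le _ _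
      _ ≤ 2 * (1/2 : ℝ)^n + 2 * (1/2 : ℝ)^n := add_le_add (norm_Phi_le n x') (norm_Phi_le n x)
      _ = _ := by ring
  have hsmall : ∀ i : ℕ, 4 * (1/2 : ℝ)^(i+3) < (1/2 : ℝ)^i := by
    intro i
    rw [pow_add]
    have : (0:ℝ) < (1/2)^i := by positivity
    norm_num
    linarith
  constructor
  · by_contra hne
    have h1 := lower1 (n := J + 3) hk hne x x'
    have h2 := hup (J+3) (by omega)
    have h3 := hsmall J
    linarith
  · intro j0 hj0
    by_contra hne
    have h1 := lower2 (n := j0 + 3) hk x x' hj0 (by omega) hne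
    have h2 := hup (j0+3) (by omega)
    have h3 := hsmall j0
    linarith

/-- the compact set of tail sums -/
def KJ (J : ℕ) : Set Gx := Set.range (Phi J)

lemma isCompact_KJ (J : ℕ) : IsCompact (KJ J) := isCompact_range (continuous_Phi J)

lemma measurableSet_KJ (J : ℕ) : MeasurableSet (KJ J) := (isCompact_KJ J).isClosed.measurableSet

/-- partial sumsets -/
def SS (J : ℕ) : ℕ → Finset ℤ
  | 0 => {0}
  | (n+1) => ((SS J n) ×ˢ (Aset (J+n))).image fun p => p.1 + (p.2 : ℤ)

lemma SS_card (J n : ℕ) : ((SS J n).card : ℝ≥0∞) * Wt (J+n) ≤ Wt J := by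
  induction n with
  | zero => simp [SS]
  | succ n ih =>
    have h1 : (SS J (n+1)).card ≤ (SS J n).card * (Aset (J+n)).card := by
      rw [show SS J (n+1) = ((SS J n) ×ˢ (Aset (J+n))).image (fun p => p.1 + (p.2 : ℤ)) from rfl]
      refine card_image_le.trans ?_
      rw [card_product]
    have h2 : ((SS J (n+1)).card : ℝ≥0∞) ≤ (SS J n).card * (Aset (J+n)).card := by exact_mod_cast h1
    rw [← add_assoc, Wt_succ]
    calc ((SS J (n+1)).card : ℝ≥0∞) * (Wt (J+n) * ((Aset (J+n)).card : ℝ≥0∞)⁻¹)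
        ≤ ((SS J n).card * (Aset (J+n)).card) * (Wt (J+n) * ((Aset (J+n)).card : ℝ≥0∞)⁻¹) :=
          mul_le_mul_left h2 _
      _ = ((SS J n).card * Wt (J+n)) * ((Aset (J+n)).card * ((Aset (J+n)).card : ℝ≥0∞)⁻¹) := by ring
      _ = (SS J n).card * Wt (J+n) := by
          rw [ENNReal.mul_inv_cancel (card_ne_zero' _) (ENNReal.natCast_ne_top _), mul_one]
      _ ≤ Wt J := ih

lemma mem_SS (J n : ℕ) (x : Om) : ∑ j ∈ Ico J (J+n), ((x j : ℕ) : ℤ) ∈ SS J n := by
  induction n with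
  | zero => simp [SS]
  | succ n ih =>
    unfold SS
    rw [mem_image]
    refine ⟨(∑ j ∈ Ico J (J+n), ((x j : ℕ) : ℤ), (x (J+n) : ℕ)), ?_, ?_⟩
    · rw [mem_product]
      exact ⟨ih, (x (J+n)).2⟩
    · rw [← add_assoc, Finset.sum_Ico_succ_top (by omega)]

lemma sum_digits_le {J n : ℕ} (x : Om) : |∑ j ∈ Ico J n, ((x j : ℕ) : ℤ)| ≤ Lb n := by
  rw [abs_of_nonneg (Finset.sum_nonneg fun j _ => by positivity)]
  have h1 : ∑ j ∈ Ico J n, (x j : ℕ) ≤ ∑ j ∈ range n, (2^j+2) * (Aset j).sup id := by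
    calc ∑ j ∈ Ico J n, (x j : ℕ) ≤ ∑ j ∈ range n, (x j : ℕ) := by
          apply Finset.sum_le_sum_of_subset
          intro j hj
          rw [mem_Ico] at hj
          rw [mem_range]
          exact hj.2
      _ ≤ _ := by
          apply Finset.sum_le_sum
          intro j _
          have := le_sup_Aset (x j).2
          nlinarith [Nat.one_le_two_pow (n := j)]
  have h2 := h1.trans (sum_bound n)
  exact_mod_cast h2

lemma muJ_KJ_le (J : ℕ) (J' : ℕ) (h : J ≤ J') : muJ J' (KJ J) ≤ Wt J := by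
  obtain ⟨n, rfl⟩ := Nat.exists_eq_add_of_le h
  rw [muJ_apply _ (measurableSet_KJ J)]
  have h1 : ∀ m ∈ Icc (-(Lb (J+n) : ℤ)) (Lb (J+n)), kk (J+n) m (KJ J) ≤ if m ∈ SS J n then 1 else 0 := by
    intro m hm
    by_cases hS : m ∈ SS J n
    · rw [if_pos hS]
      exact prob_le_one
    · rw [if_neg hS, nonpos_iff_eq_zero, kk_eq (measurableSet_KJ J)]
      convert measure_empty (μ := Pm)
      rw [Set.eq_empty_iff_forall_notMem]
      rintro y hy
      simp only [Set.mem_ofPred_eq, KJ, Set.mem_range] at hy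
      obtain ⟨x, hx⟩ := hy
      rw [Phi_split h x] at hx
      have hz : zi (m - ∑ j ∈ Ico J (J+n), ((x j : ℕ) : ℤ)) + Phi (J+n) y - Phi (J+n) x = 0 := by
        rw [map_sub]
        have : zi m - zi (∑ j ∈ Ico J (J+n), ((x j : ℕ) : ℤ)) + Phi (J+n) y - Phi (J+n) x
          = (zi m + Phi (J+n) y) - (zi (∑ j ∈ Ico J (J+n), ((x j : ℕ) : ℤ)) + Phi (J+n) x) := by abel
        rw [this, ← hx, sub_self]
      have hb : |m - ∑ j ∈ Ico J (J+n), ((x j : ℕ) : ℤ)| ≤ 2 * Lb (J+n) := by
        rw [mem_Icc] at hm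
        have h3 : |m| ≤ Lb (J+n) := abs_le.mpr hm
        have h4 := sum_digits_le (J := J) (n := J+n) x
        calc _ ≤ |m| + |∑ j ∈ Ico J (J+n), ((x j : ℕ) : ℤ)| := abs_sub _ _
          _ ≤ _ := by linarith
      have := (inj_code hb y x hz).1
      apply hS
      have e : m = ∑ j ∈ Ico J (J+n), ((x j : ℕ) : ℤ) := by linarith
      rw [e]
      exact mem_SS J n x
  calc Wt (J+n) * ∑ m ∈ Icc (-(Lb (J+n) : ℤ)) (Lb (J+n)), kk (J+n) m (KJ J)
      ≤ Wt (J+n) * ∑ m ∈ Icc (-(Lb (J+n) : ℤ)) (Lb (J+n)), (if m ∈ SS J n then (1:ℝ≥0∞) else 0) :=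
        mul_le_mul_right (Finset.sum_le_sum h1) _
    _ ≤ Wt (J+n) * (SS J n).card := by
        apply mul_le_mul_right
        rw [← Finset.sum_filter, Finset.sum_const, nsmul_eq_mul, mul_one]
        have : (filter (fun m => m ∈ SS J n) (Icc (-(Lb (J+n) : ℤ)) (Lb (J+n)))).card ≤ (SS J n).card := by
          apply card_le_card
          intro m hm
          exact (mem_filter.mp hm).2
        exact_mod_cast this
    _ ≤ Wt J := by rw [mul_comm]; exact SS_card J n

lemma mu_KJ_lt_top (J : ℕ) : mu (KJ J) < ∞ := by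
  rw [mu_apply (measurableSet_KJ J)]
  refine lt_of_le_of_lt ?_ (Wt_ne_top J).lt_top
  apply iSup_le
  intro J'
  rcases le_total J J' with h | h
  · exact muJ_KJ_le J J' h
  · exact (muJ_mono h _).trans (muJ_KJ_le J J (le_refl J))

/-- translates of the compact pieces -/
def piece (p : ℤ × ℕ) : Set Gx := {g | zi (-p.1) + g ∈ KJ p.2}

lemma measurableSet_piece (p : ℤ × ℕ) : MeasurableSet (piece p) :=
  measurableSet_translate (measurableSet_KJ p.2) _

lemma mu_piece_lt_top (p : ℤ × ℕ) : mu (piece p) < ∞ := by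
  unfold piece
  rw [mu_translate_int (measurableSet_KJ p.2)]
  exact mu_KJ_lt_top p.2

lemma mem_piece (m : ℤ) (J : ℕ) (x : Om) : zi m + Phi J x ∈ piece (m, J) := by
  unfold piece
  simp only [Set.mem_ofPred_eq, KJ, Set.mem_range]
  refine ⟨x, ?_⟩
  rw [← add_assoc, ← map_add]
  simp

lemma mu_compl_pieces : mu (⋃ p, piece p)ᶜ = 0 := by
  have hm : MeasurableSet (⋃ p, piece p)ᶜ := (MeasurableSet.iUnion measurableSet_piece).compl
  rw [mu_apply hm]
  simp only [ENNReal.iSup_eq_zero]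
  intro J
  rw [muJ_apply J hm]
  have : ∀ m ∈ Icc (-(Lb J : ℤ)) (Lb J), kk J m (⋃ p, piece p)ᶜ = 0 := by
    intro m _
    rw [kk_eq hm]
    convert measure_empty (μ := Pm)
    rw [Set.eq_empty_iff_forall_notMem]
    intro x hx
    simp only [Set.mem_ofPred_eq, Set.mem_compl_iff, Set.mem_iUnion, not_exists] at hx
    exact hx (m, J) (mem_piece m J x)
  rw [Finset.sum_eq_zero this, mul_zero]

instance : SigmaFinite mu := by
  have hS : (⋃ p, piece p)ᶜ ∪ (⋃ p, piece p) = Set.univ := Set.compl_union_self _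
  refine ⟨⟨{
    set := fun n => (⋃ p, piece p)ᶜ ∪ (match Encodable.decode (α := ℤ × ℕ) n with
      | none => ∅
      | some p => piece p)
    set_mem := fun _ => trivial
    finite := ?_
    spanning := ?_ }⟩⟩
  · intro n
    refine (measure_union_le _ _).trans_lt ?_
    rw [mu_compl_pieces, zero_add]
    split
    · simp
    · exact mu_piece_lt_top _
  · rw [Set.eq_univ_iff_forall]
    intro g
    rw [Set.mem_iUnion]
    by_cases hg : g ∈ ⋃ p, piece p
    · rw [Set.mem_iUnion] at hg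
      obtain ⟨p, hp⟩ := hg
      refine ⟨Encodable.encode p, Or.inr ?_⟩
      simp only [Encodable.encodek]
      exact hp
    · exact ⟨0, Or.inl hg⟩

lemma Pm_tail_zero (J : ℕ) (x : Om) : Pm {y : Om | ∀ j, J ≤ j → y j = x j} = 0 := by
  have hle : ∀ n : ℕ, Pm {y : Om | ∀ j, J ≤ j → y j = x j} ≤ (2⁻¹ : ℝ≥0∞)^n := by
    intro n
    have hsub : {y : Om | ∀ j, J ≤ j → y j = x j} ⊆ Set.pi (Ico J (J+n) : Finset ℕ) (fun j => {x j}) := by
      intro y hy j hj
      simp only [mem_coe, mem_Ico] at hj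
      exact hy j hj.1
    refine (measure_mono hsub).trans ?_
    unfold Pm
    rw [Measure.infinitePi_pi _ (fun i _ => measurableSet_singleton _)]
    simp_rw [unif_singleton]
    calc ∏ i ∈ Ico J (J+n), ((Aset i).card : ℝ≥0∞)⁻¹ ≤ ∏ i ∈ Ico J (J+n), (2⁻¹ : ℝ≥0∞) := by
          apply Finset.prod_le_prod'
          intro i _
          rw [ENNReal.inv_le_inv]
          have := Aset_card i
          exact_mod_cast this
      _ = (2⁻¹ : ℝ≥0∞)^n := by simp
  have hlim : Filter.Tendsto (fun n : ℕ => (2⁻¹ : ℝ≥0∞)^n) Filter.atTop (nhds 0) :=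
    ENNReal.tendsto_pow_atTop_nhds_zero_of_lt_one (by
      rw [ENNReal.inv_lt_one]; norm_num)
  exact le_antisymm (ge_of_tendsto' hlim hle) zero_le

instance : NullSingletonClass mu := by
  constructor
  intro g
  rw [mu_apply (measurableSet_singleton g)]
  simp only [ENNReal.iSup_eq_zero]
  intro J
  rw [muJ_apply J (measurableSet_singleton g)]
  have : ∀ m ∈ Icc (-(Lb J : ℤ)) (Lb J), kk J m {g} = 0 := by
    intro m _
    rw [kk_eq (measurableSet_singleton g)]
    by_cases hex : ∃ x : Om, zi m + Phi J x = g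
    · obtain ⟨x, hx⟩ := hex
      refine measure_mono_null ?_ (Pm_tail_zero J x)
      intro y hy j hj
      simp only [Set.mem_ofPred_eq, Set.mem_singleton_iff] at hy
      have hz : zi 0 + Phi J y - Phi J x = 0 := by
        rw [map_zero, zero_add]
        have : Phi J y - Phi J x = (zi m + Phi J y) - (zi m + Phi J x) := by abel
        rw [this, hy, hx, sub_self]
      exact (inj_code (by simp) y x hz).2 j hj
    · push Not at hex
      convert measure_empty (μ := Pm)
      rw [Set.eq_empty_iff_forall_notMem]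
      intro y hy
      exact hex y hy
  rw [Finset.sum_eq_zero this, mul_zero]

lemma Wt_mul_Lb (J : ℕ) : (2:ℝ≥0∞)^J ≤ Wt J * Lb J := by
  induction J with
  | zero => simp [Wt, Lb_zero]
  | succ J ih =>
    have h1 : 2 * (Aset J).card * Lb J ≤ Lb (J+1) := by
      rw [Lb_succ]
      have := Nat.mul_le_mul_left (2 * (Aset J).card) (Nat.le_succ (Lb J))
      simp only [Nat.succ_eq_add_one] at this
      omega
    have h2 : (2 : ℝ≥0∞) * (Aset J).card * Lb J ≤ Lb (J+1) := by exact_mod_cast h1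
    rw [Wt_succ, pow_succ]
    calc (2:ℝ≥0∞)^J * 2 ≤ (Wt J * Lb J) * 2 := mul_le_mul_left ih _
      _ = (Wt J * Lb J) * 2 * (((Aset J).card : ℝ≥0∞)⁻¹ * (Aset J).card) := by
          rw [ENNReal.inv_mul_cancel (card_ne_zero' _) (ENNReal.natCast_ne_top _), mul_one]
      _ = Wt J * ((Aset J).card : ℝ≥0∞)⁻¹ * (2 * (Aset J).card * Lb J) := by ring
      _ ≤ _ := mul_le_mul_right h2 _

lemma kk_univ (J : ℕ) (m : ℤ) : kk J m Set.univ = 1 := by
  unfold kk
  simp

lemma mu_univ : mu Set.univ = ∞ := by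
  rw [mu_apply MeasurableSet.univ]
  have h : ∀ J : ℕ, (2:ℝ≥0∞)^J ≤ muJ J Set.univ := by
    intro J
    rw [muJ_apply J MeasurableSet.univ]
    simp_rw [kk_univ]
    rw [Finset.sum_const, nsmul_eq_mul, mul_one]
    refine (Wt_mul_Lb J).trans ?_
    apply mul_le_mul_right
    simp only [Int.card_Icc]
    have : Lb J ≤ ((Lb J : ℤ) + 1 - -(Lb J : ℤ)).toNat := by omega
    exact_mod_cast this
  rw [iSup_eq_top]
  intro b hb
  have hlim : Filter.Tendsto (fun n : ℕ => (2 : ℝ≥0∞)^n) Filter.atTop (nhds ∞) :=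
    ENNReal.tendsto_pow_atTop_nhds_top_iff.mpr (by norm_num)
  have := hlim.eventually (lt_mem_nhds hb)
  obtain ⟨n, hn⟩ := this.exists
  exact ⟨n, hn.trans_le (h n)⟩

lemma mu_ball_pos (g : Gx) {ε : ℝ} (hε : 0 < ε) : 0 < mu (Metric.ball g ε) := by
  obtain ⟨m, hm⟩ := dense_zi.exists_dist_lt g (half_pos hε)
  obtain ⟨J0, hJ0⟩ := exists_pow_lt_of_lt_one (show 0 < ε/4 by linarith) (show (1/2:ℝ) < 1 by norm_num)
  set J := max J0 m.natAbs with hJ
  have hmJ : m ∈ Icc (-(Lb J : ℤ)) (Lb J) := by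
    have h1 := Lb_gt J
    have h2 : m.natAbs ≤ J := le_max_right _ _
    rw [mem_Icc]
    omega
  have hJs : (1/2:ℝ)^J < ε/4 := by
    refine lt_of_le_of_lt ?_ hJ0
    exact pow_le_pow_of_le_one (by norm_num) (by norm_num) (le_max_left _ _)
  have hball : MeasurableSet (Metric.ball g ε) := Metric.isOpen_ball.measurableSet
  have h1 : kk J m (Metric.ball g ε) = 1 := by
    rw [kk_eq hball]
    convert measure_univ (μ := Pm)
    rw [Set.eq_univ_iff_forall]
    intro x
    simp only [Set.mem_ofPred_eq, Metric.mem_ball]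
    rw [dist_comm]
    calc dist g (zi m + Phi J x) ≤ dist g (zi m) + dist (zi m) (zi m + Phi J x) := dist_triangle _ _ _
      _ = dist g (zi m) + ‖Phi J x‖ := by
          congr 1
          rw [dist_eq_norm]
          rw [show zi m - (zi m + Phi J x) = -(Phi J x) by abel, norm_neg]
      _ < ε / 2 + ε / 2 := by
          have := norm_Phi_le J x
          linarith
      _ = ε := by ring
  calc 0 < Wt J * 1 := by rw [mul_one]; exact Wt_pos J
    _ = Wt J * kk J m (Metric.ball g ε) := by rw [h1]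
    _ ≤ Wt J * ∑ m ∈ Icc (-(Lb J : ℤ)) (Lb J), kk J m (Metric.ball g ε) := by
        apply mul_le_mul_right
        exact Finset.single_le_sum (f := fun m => kk J m (Metric.ball g ε)) (fun _ _ => zero_le) hmJ
    _ = muJ J (Metric.ball g ε) := (muJ_apply J hball).symm
    _ ≤ mu (Metric.ball g ε) := muJ_le_mu J _

end

end Pool.Agent.Lib.P605199
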